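import Mathlib
import Pool.Agent.Lib.MP_1da757_ag.Defs
import Pool.Agent.Lib.MP_1da757_ag.Cut

section

/-!
# The pairs: four concurrent lines with coefficient `1/2` and one more line
-/

open MvPolynomial
open scoped LinearAlgebra.Projectivization

namespace Pool.Agent.Lib.MP_1da757_ag

noncomputable section

/-- the five lines -/
def lines : Fin 5 → MvPolynomial (Fin 3) ℂ := ![X 0, X 1, X 1 - X 0, X 1 + X 0, X 2]

/-- the coefficients -/
def coef (m : ℕ) : Fin 5 → ℝ := ![1 / 2, 1 / 2, 1 / 2, 1 / 2, 1 - 1 / (m : ℝ)]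

/-- a point on each line -/
def onLine : Fin 5 → Fin 3 → ℂ := ![![0, 1, 1], ![1, 0, 1], ![1, 1, 1], ![1, -1, 1], ![1, 2, 0]]

lemma lines_homogeneous (i : Fin 5) : (lines i).IsHomogeneous 1 := by
  fin_cases i
  · exact isHomogeneous_X _ _
  · exact isHomogeneous_X _ _
  · exact (isHomogeneous_X _ _).sub (isHomogeneous_X _ _)
  · exact (isHomogeneous_X _ _).add (isHomogeneous_X _ _)
  · exact isHomogeneous_X _ _

lemma eval_onLine (i j : Fin 5) : eval (onLine i) (lines j) = 0 ↔ i = j := by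
  fin_cases i <;> fin_cases j <;> simp [onLine, lines] <;> norm_num

lemma lines_ne_zero (i : Fin 5) : lines i ≠ 0 := by
  intro h
  obtain ⟨j, hj⟩ : ∃ j : Fin 5, j ≠ i := exists_ne i
  exact hj ((eval_onLine j i).1 (by rw [h, map_zero]))

lemma irreducible_of_linear {p : MvPolynomial (Fin 3) ℂ} (h : p.IsHomogeneous 1) (h0 : p ≠ 0) :
    Irreducible p := by
  apply irreducible_of_totalDegree_eq_one (h.totalDegree h0)
  intro x hx
  rw [isUnit_iff_ne_zero]
  rintro rfl
  apply h0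
  ext i
  rw [coeff_zero]
  exact zero_dvd_iff.1 (hx i)

lemma lines_distinct (i j : Fin 5) (h : Associated (lines i) (lines j)) : i = j := by
  rw [← eval_onLine]
  obtain ⟨c, hc⟩ := h.dvd
  rw [hc, map_mul, (eval_onLine i i).2 rfl, zero_mul]

lemma coef_nonneg (m : ℕ) (i : Fin 5) : 0 ≤ coef m i := by
  have h : (0 : ℝ) ≤ 1 - 1 / (m : ℝ) := by
    rcases Nat.eq_zero_or_pos m with rfl | hm
    · simp
    · have : (1 : ℝ) ≤ m := by exact_mod_cast hm
      rw [sub_nonneg, div_le_one (by linarith)]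
      exact this
  fin_cases i <;> simp [coef]
  simpa using h

/-- The pair. -/
def pair (m : ℕ) : PlanePair where
  r := 5
  F := lines
  deg _ := 1
  b := coef m
  homogeneous := lines_homogeneous
  irreducible i := irreducible_of_linear (lines_homogeneous i) (lines_ne_zero i)
  distinct := lines_distinct
  nonneg := coef_nonneg m

lemma isotropy_eq {m : ℕ} (hm : 0 < m) : isotropy (1 - 1 / (m : ℝ)) = m := by
  have hs : {k : ℕ | 0 < k ∧ 1 - 1 / (k : ℝ) ≤ 1 - 1 / (m : ℝ)} = Set.Icc 1 m := by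
    ext k
    simp only [Set.mem_ofPred_eq, Set.mem_Icc]
    constructor
    · rintro ⟨hk, h⟩
      refine ⟨hk, ?_⟩
      have h2 : 1 / (m : ℝ) ≤ 1 / (k : ℝ) := by linarith
      rw [one_div_le_one_div (by exact_mod_cast hm) (by exact_mod_cast hk)] at h2
      exact_mod_cast h2
    · rintro ⟨hk, h⟩
      refine ⟨hk, ?_⟩
      have h2 : 1 / (m : ℝ) ≤ 1 / (k : ℝ) := by
        rw [one_div_le_one_div (by exact_mod_cast hm) (by exact_mod_cast hk)]
        exact_mod_cast h
      linarith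
  rw [isotropy, hs]
  exact csSup_Icc hm

lemma isotropy_half : isotropy (1 / 2) = 2 := by
  have h := isotropy_eq (m := 2) (by norm_num)
  have h2 : (1 : ℝ) - 1 / ((2 : ℕ) : ℝ) = 1 / 2 := by norm_num
  rw [h2] at h
  exact h

/-- the isotropy orders -/
def ord (m : ℕ) : Fin 5 → ℕ := ![2, 2, 2, 2, m]

lemma isotropy_coef {m : ℕ} (hm : 0 < m) (i : Fin 5) : isotropy (coef m i) = ord m i := by
  fin_cases i
  · exact isotropy_half
  · exact isotropy_half
  · exact isotropy_half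
  · exact isotropy_half
  · exact isotropy_eq hm

lemma ord_ne_one {m : ℕ} (hm : 2 ≤ m) (i : Fin 5) : ord m i ≠ 1 := by
  fin_cases i <;> simp [ord]
  omega

lemma isFano {m : ℕ} (hm : 0 < m) : (pair m).IsFano := by
  have h0 : (0 : ℝ) < ((m : ℝ))⁻¹ := by positivity
  change ∑ i : Fin 5, coef m i * ((1 : ℕ) : ℝ) < 3
  simp only [Fin.sum_univ_five, coef]
  simp
  linarith

end

end Pool.Agent.Lib.MP_1da757_ag
end

section

/-!
# The pairs are log canonical
-/

open MvPolynomial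
open scoped LinearAlgebra.Projectivization

namespace Pool.Agent.Lib.MP_1da757_ag

noncomputable section

set_option linter.unusedSectionVars false
set_option linter.unusedSimpArgs false

variable {K : Type} [Field K] [Algebra ℂ K] (v : AddValuation K (WithTop ℤ))

lemma v_zpow (hv : Function.Surjective v) : ∃ t : K, t ≠ 0 ∧ ∀ k : ℕ, v (t ^ k) = k := by
  obtain ⟨t, ht⟩ := hv ((1 : ℤ) : WithTop ℤ)
  refine ⟨t, ?_, ?_⟩
  · rintro rfl
    rw [AddValuation.map_zero] at ht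
    exact absurd ht WithTop.top_ne_coe
  · intro k
    rw [AddValuation.map_pow, ht]
    induction k with
    | zero => simp
    | succ k ih =>
      rw [succ_nsmul, ih]
      push_cast
      rfl

lemma v_unit_part {t : K} (ht0 : t ≠ 0) (ht : ∀ k : ℕ, v (t ^ k) = k) (p : K) (α : ℕ)
    (hp : v p = α) : ∃ p₀ : K, v p₀ = 0 ∧ p = t ^ α * p₀ := by
  have hne : t ^ α ≠ 0 := pow_ne_zero _ ht0
  refine ⟨(t ^ α)⁻¹ * p, ?_, by rw [mul_inv_cancel_left₀ hne]⟩
  have h1 : v (t ^ α * ((t ^ α)⁻¹ * p)) = α := by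
    rw [mul_inv_cancel_left₀ hne, hp]
  rw [AddValuation.map_mul, ht] at h1
  generalize v ((t ^ α)⁻¹ * p) = y at h1
  cases y with
  | top => simp at h1
  | coe y =>
    have h2 : (α : ℤ) + y = α := by exact_mod_cast h1
    have h3 : y = 0 := by linarith
    rw [h3]
    rfl

/-- logarithmic forms have at most a simple pole -/
lemma snc (hv : Function.Surjective v) (hnat : ∀ k : ℕ, 0 ≤ v (k : K)) (p q : K) (α β : ℕ)
    (hp : v p = α) (hq : v q = β) : FormOrderGE v p q ((α : ℤ) + β - 1) := by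
  obtain ⟨t, ht0, ht⟩ := v_zpow v hv
  obtain ⟨p₀, hp₀, rfl⟩ := v_unit_part v ht0 ht p α hp
  obtain ⟨q₀, hq₀, rfl⟩ := v_unit_part v ht0 ht q β hq
  intro d₁ d₂
  have hD : ∀ (d : Derivation ℂ K K) (x : K) (k : ℕ), d (t ^ k * x) =
      t ^ k * d x + x * (k * t ^ (k - 1)) * d t := by
    intro d x k
    rw [Derivation.leibniz, Derivation.leibniz_pow]
    simp only [smul_eq_mul, nsmul_eq_mul]
    ring
  have hw : d₁ (t ^ α * p₀) * d₂ (t ^ β * q₀) - d₂ (t ^ α * p₀) * d₁ (t ^ β * q₀) =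
      t ^ (α + β) * (d₁ p₀ * d₂ q₀ - d₂ p₀ * d₁ q₀) +
      (t ^ α * (q₀ * (β * t ^ (β - 1)))) * (d₁ p₀ * d₂ t - d₂ p₀ * d₁ t) +
      (p₀ * (α * t ^ (α - 1)) * t ^ β) * (d₁ t * d₂ q₀ - d₂ t * d₁ q₀) := by
    rw [hD, hD, hD, hD, pow_add]
    ring
  have hv1 : (0 : WithTop ℤ) ≤ v t := by
    have h := ht 1
    rw [pow_one] at h
    rw [h]
    exact_mod_cast Nat.zero_le 1
  have hmul : ∀ (g : K) (k : ℕ), 0 ≤ v g → α + β - 1 ≤ k →
      (((α : ℤ) + β - 1 : ℤ) : WithTop ℤ) ≤ v (g * t ^ k) := by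
    intro g k hg hk
    rw [AddValuation.map_mul, ht]
    calc (((α : ℤ) + β - 1 : ℤ) : WithTop ℤ) ≤ ((k : ℤ) : WithTop ℤ) := by
          apply WithTop.coe_le_coe.2
          omega
      _ = 0 + (k : WithTop ℤ) := by rw [zero_add]; rfl
      _ ≤ v g + k := by gcongr
  rw [hw]
  refine AddSubgroup.add_mem _ (AddSubgroup.add_mem _ ?_ ?_) ?_
  · apply AddSubgroup.subset_closure
    refine ⟨t ^ (α + β), p₀, q₀, ?_, hp₀.ge, hq₀.ge, rfl⟩
    have := hmul 1 (α + β) (by simp) (by omega)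
    rwa [one_mul] at this
  · apply AddSubgroup.subset_closure
    refine ⟨_, p₀, t, ?_, hp₀.ge, hv1, rfl⟩
    rcases Nat.eq_zero_or_pos β with h | h
    · subst h
      have e : t ^ α * (q₀ * (((0 : ℕ) : K) * t ^ (0 - 1))) = 0 := by
        push_cast
        ring
      rw [e, AddValuation.map_zero]
      exact le_top
    · have e : t ^ α * (q₀ * (β * t ^ (β - 1))) = (q₀ * β) * t ^ (α + (β - 1)) := by
        rw [pow_add]
        ring
      rw [e]
      refine hmul _ _ ?_ (by omega)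
      rw [AddValuation.map_mul, hq₀, zero_add]
      exact hnat β
  · apply AddSubgroup.subset_closure
    refine ⟨_, t, q₀, ?_, hv1, hq₀.ge, rfl⟩
    rcases Nat.eq_zero_or_pos α with h | h
    · subst h
      have e : p₀ * (((0 : ℕ) : K) * t ^ (0 - 1)) * t ^ β = 0 := by
        push_cast
        ring
      rw [e, AddValuation.map_zero]
      exact le_top
    · have e : p₀ * (α * t ^ (α - 1)) * t ^ β = (p₀ * α) * t ^ ((α - 1) + β) := by
        rw [pow_add]
        ring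
      rw [e]
      refine hmul _ _ ?_ (by omega)
      rw [AddValuation.map_mul, hp₀, zero_add]
      exact hnat α

section charts

variable {v} (φ : MvPolynomial (Fin 2) ℂ →ₐ[ℂ] K) (hφ : Function.Injective φ)
  (hv : Function.Surjective v) (hpos : ∀ p, 0 ≤ v (φ p))

/-- the order of vanishing of a polynomial -/
def vv (v : AddValuation K (WithTop ℤ)) (φ : MvPolynomial (Fin 2) ℂ →ₐ[ℂ] K)
    (p : MvPolynomial (Fin 2) ℂ) : ℕ := ((v (φ p)).untopD 0).toNat

include hφ hpos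

lemma coe_vv {p : MvPolynomial (Fin 2) ℂ} (hp : p ≠ 0) :
    v (φ p) = ((vv v φ p : ℕ) : WithTop ℤ) := by
  have h1 : v (φ p) ≠ ⊤ := by
    intro h
    rw [AddValuation.top_iff] at h
    exact hp (hφ (by rw [h, map_zero]))
  have h2 := hpos p
  rw [vv]
  generalize v (φ p) = y at h1 h2
  cases y with
  | top => exact absurd rfl h1
  | coe y =>
    have h3 : 0 ≤ y := by exact_mod_cast h2
    obtain ⟨n, rfl⟩ := Int.eq_ofNat_of_zero_le h3
    rfl

omit hφ in
lemma vv_unit (c : ℂ) (hc : c ≠ 0) : vv v φ (C c) = 0 := by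
  have h1 := hpos (C c)
  have h2 := hpos (C c⁻¹)
  have h3 : v (φ (C c)) + v (φ (C c⁻¹)) = 0 := by
    rw [← AddValuation.map_mul, ← map_mul, ← C_mul, mul_inv_cancel₀ hc, C_1, map_one,
      AddValuation.map_one]
  rw [vv]
  generalize v (φ (C c)) = y at h1 h3
  generalize v (φ (C c⁻¹)) = z at h2 h3
  cases y with
  | top => simp at h3
  | coe y =>
    cases z with
    | top => simp at h3
    | coe z =>
      have h4 : 0 ≤ y := by exact_mod_cast h1
      have h5 : 0 ≤ z := by exact_mod_cast h2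
      have h6 : y + z = 0 := by exact_mod_cast h3
      have h7 : y = 0 := by omega
      rw [h7]
      rfl

lemma min_vv (p q r : MvPolynomial (Fin 2) ℂ) (hp : p ≠ 0) (hq : q ≠ 0) (hr : r ≠ 0)
    (h : r = p + q) : min (vv v φ p) (vv v φ q) ≤ vv v φ r := by
  have h1 := AddValuation.map_add v (φ p) (φ q)
  rw [← map_add, ← h, coe_vv φ hφ hpos hp, coe_vv φ hφ hpos hq, coe_vv φ hφ hpos hr,
    min_le_iff] at h1
  rw [min_le_iff]
  exact_mod_cast h1

omit hφ hpos in
lemma vv_neg (p : MvPolynomial (Fin 2) ℂ) : vv v φ (-p) = vv v φ p := by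
  rw [vv, vv, map_neg, AddValuation.map_neg]

include hv in
/-- the estimate for two linear coordinates -/
lemma snc' (p q : MvPolynomial (Fin 2) ℂ) (hp : p ≠ 0) (hq : q ≠ 0)
    (h : ∀ d₁ d₂ : Derivation ℂ K K, d₁ (φ p) * d₂ (φ q) - d₂ (φ p) * d₁ (φ q) =
      d₁ (φ (X 0)) * d₂ (φ (X 1)) - d₂ (φ (X 0)) * d₁ (φ (X 1))) :
    FormOrderGE v (φ (X 0)) (φ (X 1)) ((vv v φ p : ℤ) + vv v φ q - 1) := by
  have hnat : ∀ k : ℕ, 0 ≤ v (k : K) := by
    intro k
    have := hpos (k : MvPolynomial (Fin 2) ℂ)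
    rwa [map_natCast] at this
  have h1 := snc v hv hnat (φ p) (φ q) _ _ (coe_vv φ hφ hpos hp) (coe_vv φ hφ hpos hq)
  intro d₁ d₂
  rw [← h]
  exact h1 d₁ d₂

omit hφ hpos in
lemma d_C (d : Derivation ℂ K K) (c : ℂ) : d (φ (C c)) = 0 := by
  have : φ (C c) = algebraMap ℂ K c := φ.commutes c
  rw [this, Derivation.map_algebraMap]

omit hφ hpos in
lemma wedge_shift (c : ℂ) (d₁ d₂ : Derivation ℂ K K) :
    d₁ (φ (X 0 + C c)) * d₂ (φ (X 1)) - d₂ (φ (X 0 + C c)) * d₁ (φ (X 1)) =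
      d₁ (φ (X 0)) * d₂ (φ (X 1)) - d₂ (φ (X 0)) * d₁ (φ (X 1)) := by
  rw [map_add, map_add, map_add, d_C, d_C]
  ring

omit hφ hpos in
lemma wedge_shear (c : ℂ) (d₁ d₂ : Derivation ℂ K K) :
    d₁ (φ (X 0)) * d₂ (φ (X 1 + C c * X 0)) - d₂ (φ (X 0)) * d₁ (φ (X 1 + C c * X 0)) =
      d₁ (φ (X 0)) * d₂ (φ (X 1)) - d₂ (φ (X 0)) * d₁ (φ (X 1)) := by
  rw [map_add, map_add, map_add, map_mul, Derivation.leibniz, Derivation.leibniz, d_C, d_C]
  simp only [smul_eq_mul]
  ring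

end charts

/-- the affine equations of the lines in the first chart -/
def aff0 : Fin 5 → MvPolynomial (Fin 2) ℂ := ![1, X 0, X 0 - 1, X 0 + 1, X 1]
/-- the affine equations of the lines in the second chart -/
def aff1 : Fin 5 → MvPolynomial (Fin 2) ℂ := ![X 0, 1, 1 - X 0, 1 + X 0, X 1]
/-- the affine equations of the lines in the third chart -/
def aff2 : Fin 5 → MvPolynomial (Fin 2) ℂ := ![X 0, X 1, X 1 - X 0, X 1 + X 0, 1]

lemma aeval_lines0 (i : Fin 5) :
    aeval ((0 : Fin 3).insertNth (1 : MvPolynomial (Fin 2) ℂ) X) (lines i) = aff0 i := by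
  fin_cases i <;> simp [lines, aff0]
  rfl

lemma aeval_lines1 (i : Fin 5) :
    aeval ((1 : Fin 3).insertNth (1 : MvPolynomial (Fin 2) ℂ) X) (lines i) = aff1 i := by
  have h0 : (1 : Fin 3).insertNth (α := fun _ => MvPolynomial (Fin 2) ℂ) 1 X 0 = X 0 := rfl
  have h1 : (1 : Fin 3).insertNth (α := fun _ => MvPolynomial (Fin 2) ℂ) 1 X 1 = 1 := rfl
  have h2 : (1 : Fin 3).insertNth (α := fun _ => MvPolynomial (Fin 2) ℂ) 1 X 2 = X 1 := rfl
  fin_cases i <;> simp [lines, aff1, h0, h1, h2]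

lemma aeval_lines2 (i : Fin 5) :
    aeval ((2 : Fin 3).insertNth (1 : MvPolynomial (Fin 2) ℂ) X) (lines i) = aff2 i := by
  have h0 : (2 : Fin 3).insertNth (α := fun _ => MvPolynomial (Fin 2) ℂ) 1 X 0 = X 0 := rfl
  have h1 : (2 : Fin 3).insertNth (α := fun _ => MvPolynomial (Fin 2) ℂ) 1 X 1 = X 1 := rfl
  have h2 : (2 : Fin 3).insertNth (α := fun _ => MvPolynomial (Fin 2) ℂ) 1 X 2 = 1 := rfl
  fin_cases i <;> simp [lines, aff2, h0, h1, h2]

lemma ne_zero_of_eval {p : MvPolynomial (Fin 2) ℂ} (a b : ℂ) (h : eval ![a, b] p ≠ 0) :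
    p ≠ 0 := by
  rintro rfl
  exact h (map_zero _)

/-- the weighted sum -/
lemma sum_le (m : ℕ) (o : Fin 5 → ℕ) (n : ℤ)
    (h : (o 0 + o 1 + o 2 + o 3 + 2 * o 4 : ℤ) ≤ 2 * (n + 1)) :
    ∑ i, coef m i * (o i : ℝ) ≤ n + 1 := by
  have h1 : (o 0 + o 1 + o 2 + o 3 + 2 * o 4 : ℝ) ≤ 2 * (n + 1) := by exact_mod_cast h
  have h2 : (0 : ℝ) ≤ (m : ℝ)⁻¹ * o 4 := by positivity
  simp only [Fin.sum_univ_five, coef]
  simp
  linarith

theorem isLogCanonical (m : ℕ) : (pair m).IsLogCanonical := by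
  intro c v hv hpos _
  set φ := IsScalarTower.toAlgHom ℂ (MvPolynomial (Fin 2) ℂ)
    (FractionRing (MvPolynomial (Fin 2) ℂ)) with hφdef
  have hφ : Function.Injective φ := by
    intro a b h
    exact IsFractionRing.injective (MvPolynomial (Fin 2) ℂ)
      (FractionRing (MvPolynomial (Fin 2) ℂ)) h
  have hx : (X 0 : MvPolynomial (Fin 2) ℂ) ≠ 0 := X_ne_zero _
  have hy : (X 1 : MvPolynomial (Fin 2) ℂ) ≠ 0 := X_ne_zero _
  have h1 : (1 : MvPolynomial (Fin 2) ℂ) ≠ 0 := one_ne_zero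
  have h2 : (C 2 : MvPolynomial (Fin 2) ℂ) ≠ 0 := ne_zero_of_eval 0 0 (by simp)
  have hxm : (X 0 + C (-1) : MvPolynomial (Fin 2) ℂ) ≠ 0 := ne_zero_of_eval 0 0 (by simp)
  have hxp : (X 0 + C 1 : MvPolynomial (Fin 2) ℂ) ≠ 0 := ne_zero_of_eval 0 0 (by simp)
  have hyx : (X 1 + C (-1) * X 0 : MvPolynomial (Fin 2) ℂ) ≠ 0 := ne_zero_of_eval 0 1 (by simp)
  have hyx' : (X 1 + C 1 * X 0 : MvPolynomial (Fin 2) ℂ) ≠ 0 := ne_zero_of_eval 0 1 (by simp)
  have v1 : vv v φ 1 = 0 := by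
    have := vv_unit φ hpos 1 one_ne_zero
    rwa [C_1] at this
  have v2 : vv v φ (C 2) = 0 := vv_unit φ hpos 2 two_ne_zero
  have e1 : (X 0 - 1 : MvPolynomial (Fin 2) ℂ) = X 0 + C (-1) := by
    rw [map_neg, C_1]; ring
  have e2 : (X 0 + 1 : MvPolynomial (Fin 2) ℂ) = X 0 + C 1 := by
    rw [C_1]
  have e3 : (1 - X 0 : MvPolynomial (Fin 2) ℂ) = -(X 0 + C (-1)) := by
    rw [map_neg, C_1]; ring
  have e4 : (1 + X 0 : MvPolynomial (Fin 2) ℂ) = X 0 + C 1 := by
    rw [C_1]; ring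
  have e5 : (X 1 - X 0 : MvPolynomial (Fin 2) ℂ) = X 1 + C (-1) * X 0 := by
    rw [map_neg, C_1]; ring
  have e6 : (X 1 + X 0 : MvPolynomial (Fin 2) ℂ) = X 1 + C 1 * X 0 := by
    rw [C_1]; ring
  have e7 : (2 : MvPolynomial (Fin 2) ℂ) = C 2 := by
    rw [map_ofNat]
  have hgoal : ∀ (aff : Fin 5 → MvPolynomial (Fin 2) ℂ)
      (_ : ∀ i : Fin 5, aff i ≠ 0)
      (_ : ∀ i : Fin 5, aeval (c.insertNth (1 : MvPolynomial (Fin 2) ℂ) X) (lines i) = aff i)
      (n : ℤ) (_ : FormOrderGE v (φ (X 0)) (φ (X 1)) n)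
      (_ : (vv v φ (aff 0) + vv v φ (aff 1) + vv v φ (aff 2) + vv v φ (aff 3) +
        2 * vv v φ (aff 4) : ℤ) ≤ 2 * (n + 1)),
      ∃ n : ℤ, FormOrderGE v (φ (X 0)) (φ (X 1)) n ∧
        ∀ k : Fin 5 → ℤ, (∀ i, v (φ (aeval (c.insertNth (1 : MvPolynomial (Fin 2) ℂ) X)
          (lines i))) = k i) → ∑ i, coef m i * k i ≤ n + 1 := by
    intro aff hne haff n hn hle
    refine ⟨n, hn, fun k hk => ?_⟩
    have h := sum_le m (fun i => vv v φ (aff i)) n hle
    have h3 : ∀ i, k i = vv v φ (aff i) := by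
      intro i
      have h4 := hk i
      rw [haff i, coe_vv φ hφ hpos (hne i)] at h4
      exact_mod_cast h4.symm
    have h5 : ∀ i, (k i : ℝ) = (vv v φ (aff i) : ℝ) := by
      intro i
      rw [h3 i]
      simp
    simp only [h5]
    exact h
  have hl₁ := snc' φ hφ hv hpos (X 0) (X 1) hx hy (fun _ _ => rfl)
  have hl₂ := snc' φ hφ hv hpos (X 0 + C (-1)) (X 1) hxm hy (wedge_shift φ (-1))
  have hl₃ := snc' φ hφ hv hpos (X 0 + C 1) (X 1) hxp hy (wedge_shift φ 1)
  have hl₄ := snc' φ hφ hv hpos (X 0) (X 1 + C (-1) * X 0) hx hyx (wedge_shear φ (-1))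
  have hl₅ := snc' φ hφ hv hpos (X 0) (X 1 + C 1 * X 0) hx hyx' (wedge_shear φ 1)
  -- relations between the orders
  have r1 := min_vv φ hφ hpos (X 0) (-(X 0 + C (-1))) 1 hx (neg_ne_zero.2 hxm) h1
    (by rw [map_neg, C_1]; ring)
  have r2 := min_vv φ hφ hpos (-(X 0)) (X 0 + C 1) 1 (neg_ne_zero.2 hx) hxp h1 (by rw [C_1]; ring)
  have r3 := min_vv φ hφ hpos (-(X 0 + C (-1))) (X 0 + C 1) (C 2) (neg_ne_zero.2 hxm) hxp h2
    (by rw [map_neg, C_1, ← e7]; ring)
  rw [vv_neg φ] at r1 r2 r3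
  rw [v1] at r1 r2
  rw [v2] at r3
  -- chart 2
  have s1 := min_vv φ hφ hpos (X 1) (-(X 0)) (X 1 + C (-1) * X 0) hy (neg_ne_zero.2 hx) hyx
    (by rw [map_neg, C_1]; ring)
  have s2 := min_vv φ hφ hpos (X 1) (X 0) (X 1 + C 1 * X 0) hy hx hyx' (by rw [C_1]; ring)
  have s3 := min_vv φ hφ hpos (X 1 + C (-1) * X 0) (X 0) (X 1) hyx hx hy
    (by rw [map_neg, C_1]; ring)
  have s4 := min_vv φ hφ hpos (X 1 + C 1 * X 0) (-(X 0)) (X 1) hyx' (neg_ne_zero.2 hx) hy
    (by rw [C_1]; ring)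
  have s5 := min_vv φ hφ hpos (X 1) (-(X 1 + C (-1) * X 0)) (X 0) hy (neg_ne_zero.2 hyx) hx
    (by rw [map_neg, C_1]; ring)
  have s6 := min_vv φ hφ hpos (-(X 1)) (X 1 + C 1 * X 0) (X 0) (neg_ne_zero.2 hy) hyx' hx
    (by rw [C_1]; ring)
  have s7 := min_vv φ hφ hpos (X 1 + C (-1) * X 0) (X 1 + C 1 * X 0) (C 2 * X 1) hyx hyx'
    (mul_ne_zero h2 hy) (by rw [map_neg, C_1, ← e7]; ring)
  have s8 := min_vv φ hφ hpos (-(X 1 + C (-1) * X 0)) (X 1 + C 1 * X 0) (C 2 * X 0)
    (neg_ne_zero.2 hyx) hyx' (mul_ne_zero h2 hx) (by rw [map_neg, C_1, ← e7]; ring)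
  have hm : ∀ p : MvPolynomial (Fin 2) ℂ, p ≠ 0 → vv v φ (C 2 * p) = vv v φ p := by
    intro p hp
    have h5 := coe_vv φ hφ hpos (mul_ne_zero h2 hp)
    rw [map_mul, AddValuation.map_mul, coe_vv φ hφ hpos h2, coe_vv φ hφ hpos hp, v2] at h5
    have h6 : ((0 : ℕ) : WithTop ℤ) + (vv v φ p : WithTop ℤ) = (vv v φ p : WithTop ℤ) := by simp
    rw [h6] at h5
    exact_mod_cast h5.symm
  rw [hm _ hy] at s7
  rw [hm _ hx, vv_neg φ] at s8
  rw [vv_neg φ] at s1 s4 s5 s6
  have hne0 : ∀ i, aff0 i ≠ 0 := by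
    intro i
    fin_cases i
    · exact h1
    · exact hx
    · change (X 0 - 1 : MvPolynomial (Fin 2) ℂ) ≠ 0
      rw [e1]; exact hxm
    · change (X 0 + 1 : MvPolynomial (Fin 2) ℂ) ≠ 0
      rw [e2]; exact hxp
    · exact hy
  have hne1 : ∀ i, aff1 i ≠ 0 := by
    intro i
    fin_cases i
    · exact hx
    · exact h1
    · change (1 - X 0 : MvPolynomial (Fin 2) ℂ) ≠ 0
      rw [e3]; exact neg_ne_zero.2 hxm
    · change (1 + X 0 : MvPolynomial (Fin 2) ℂ) ≠ 0
      rw [e4]; exact hxp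
    · exact hy
  have hne2 : ∀ i, aff2 i ≠ 0 := by
    intro i
    fin_cases i
    · exact hx
    · exact hy
    · change (X 1 - X 0 : MvPolynomial (Fin 2) ℂ) ≠ 0
      rw [e5]; exact hyx
    · change (X 1 + X 0 : MvPolynomial (Fin 2) ℂ) ≠ 0
      rw [e6]; exact hyx'
    · exact h1
  fin_cases c
  · have hfin : ∀ n : ℤ, FormOrderGE v (φ (X 0)) (φ (X 1)) n →
        (vv v φ (X 0) + vv v φ (X 0 + C (-1)) + vv v φ (X 0 + C 1) + 2 * vv v φ (X 1) : ℤ) ≤
          2 * (n + 1) → _ := fun n hn hle => hgoal aff0 hne0 aeval_lines0 n hn (by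
      change (vv v φ 1 + vv v φ (X 0) + vv v φ (X 0 - 1) + vv v φ (X 0 + 1) +
        2 * vv v φ (X 1) : ℤ) ≤ _
      rw [e1, e2, v1]
      omega)
    by_cases c1 : vv v φ (X 0 + C (-1)) = 0 ∧ vv v φ (X 0 + C 1) = 0
    · exact hfin _ hl₁ (by omega)
    · by_cases c2 : vv v φ (X 0 + C (-1)) = 0
      · exact hfin _ hl₃ (by omega)
      · exact hfin _ hl₂ (by omega)
  · have hfin : ∀ n : ℤ, FormOrderGE v (φ (X 0)) (φ (X 1)) n →
        (vv v φ (X 0) + vv v φ (X 0 + C (-1)) + vv v φ (X 0 + C 1) + 2 * vv v φ (X 1) : ℤ) ≤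
          2 * (n + 1) → _ := fun n hn hle => hgoal aff1 hne1 aeval_lines1 n hn (by
      change (vv v φ (X 0) + vv v φ 1 + vv v φ (1 - X 0) + vv v φ (1 + X 0) +
        2 * vv v φ (X 1) : ℤ) ≤ _
      rw [e3, e4, v1, vv_neg φ]
      omega)
    by_cases c1 : vv v φ (X 0 + C (-1)) = 0 ∧ vv v φ (X 0 + C 1) = 0
    · exact hfin _ hl₁ (by omega)
    · by_cases c2 : vv v φ (X 0 + C (-1)) = 0
      · exact hfin _ hl₃ (by omega)
      · exact hfin _ hl₂ (by omega)
  · have hfin : ∀ n : ℤ, FormOrderGE v (φ (X 0)) (φ (X 1)) n →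
        (vv v φ (X 0) + vv v φ (X 1) + vv v φ (X 1 + C (-1) * X 0) +
          vv v φ (X 1 + C 1 * X 0) : ℤ) ≤ 2 * (n + 1) → _ :=
      fun n hn hle => hgoal aff2 hne2 aeval_lines2 n hn (by
        change (vv v φ (X 0) + vv v φ (X 1) + vv v φ (X 1 - X 0) + vv v φ (X 1 + X 0) +
          2 * vv v φ 1 : ℤ) ≤ _
        rw [e5, e6, v1]
        omega)
    by_cases c1 : vv v φ (X 1 + C (-1) * X 0) ≤ vv v φ (X 1) ∧
        vv v φ (X 1 + C 1 * X 0) ≤ vv v φ (X 1)
    · exact hfin _ hl₁ (by omega)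
    · by_cases c2 : vv v φ (X 1 + C 1 * X 0) ≤ vv v φ (X 1 + C (-1) * X 0)
      · exact hfin _ hl₄ (by omega)
      · exact hfin _ hl₅ (by omega)

end

end Pool.Agent.Lib.MP_1da757_ag
end

section

/-!
# The permutations generating the Heisenberg-type quotient
-/

namespace Pool.Agent.Lib.MP_1da757_ag

noncomputable section

/-- The set on which the group acts. -/
abbrev Fib (m : ℕ) : Type := ZMod m × ZMod m

variable (m : ℕ)

/-- first reflection -/
def g1 : Equiv.Perm (Fib m) where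
  toFun v := (-v.1, v.2)
  invFun v := (-v.1, v.2)
  left_inv v := by simp
  right_inv v := by simp

/-- second reflection -/
def g2 : Equiv.Perm (Fib m) where
  toFun v := (1 - v.1, v.2)
  invFun v := (1 - v.1, v.2)
  left_inv v := by simp
  right_inv v := by simp

/-- third reflection -/
def g3 : Equiv.Perm (Fib m) where
  toFun v := (1 - v.1, v.2 + 2 * v.1 - 1)
  invFun v := (1 - v.1, v.2 + 2 * v.1 - 1)
  left_inv v := by ext <;> simp; ring
  right_inv v := by ext <;> simp; ring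

/-- the central element -/
def ze : Equiv.Perm (Fib m) where
  toFun v := (v.1, v.2 - 1)
  invFun v := (v.1, v.2 + 1)
  left_inv v := by simp
  right_inv v := by simp

variable {m}

lemma g1_apply (v : Fib m) : g1 m v = (-v.1, v.2) := rfl
lemma g2_apply (v : Fib m) : g2 m v = (1 - v.1, v.2) := rfl
lemma g3_apply (v : Fib m) : g3 m v = (1 - v.1, v.2 + 2 * v.1 - 1) := rfl
lemma ze_apply (v : Fib m) : ze m v = (v.1, v.2 - 1) := rfl

lemma g1_sq : g1 m * g1 m = 1 := by
  ext v <;> simp [g1_apply]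

lemma g2_sq : g2 m * g2 m = 1 := by
  ext v <;> simp [g2_apply]

lemma g3_sq : g3 m * g3 m = 1 := by
  ext v <;> simp [g3_apply]
  ring

lemma g1_inv : (g1 m)⁻¹ = g1 m := inv_eq_of_mul_eq_one_right g1_sq
lemma g2_inv : (g2 m)⁻¹ = g2 m := inv_eq_of_mul_eq_one_right g2_sq
lemma g3_inv : (g3 m)⁻¹ = g3 m := inv_eq_of_mul_eq_one_right g3_sq

lemma commute_g1 : Commute (g1 m) (ze m) := by
  ext v <;> simp [g1_apply, ze_apply]

lemma commute_g2 : Commute (g2 m) (ze m) := by
  ext v <;> simp [g2_apply, ze_apply]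

lemma commute_g3 : Commute (g3 m) (ze m) := by
  ext v <;> simp [g3_apply, ze_apply]
  ring

lemma ze_pow_apply (n : ℕ) (v : Fib m) : (ze m ^ n) v = (v.1, v.2 - n) := by
  induction n with
  | zero => simp
  | succ n ih =>
    rw [pow_succ', Equiv.Perm.mul_apply, ih, ze_apply]
    ext <;> simp
    ring

lemma ze_pow : ze m ^ m = 1 := by
  ext v <;> simp [ze_pow_apply]

/-- The product of all reflections and the central element has order two. -/
lemma quad : (g3 m * g2 m * g1 m * ze m) ^ 2 = 1 := by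
  rw [pow_two]
  ext v <;> simp [g1_apply, g2_apply, g3_apply, ze_apply]
  ring

/-- translation -/
def tr : Equiv.Perm (Fib m) := g1 m * g2 m

/-- shear -/
def sh : Equiv.Perm (Fib m) := g2 m * g3 m

lemma tr_apply (v : Fib m) : tr v = (v.1 - 1, v.2) := by
  simp [tr, g1_apply, g2_apply]

lemma sh_apply (v : Fib m) : sh v = (v.1, v.2 + 2 * v.1 - 1) := by
  simp [sh, g2_apply, g3_apply]

lemma tr_pow_apply (n : ℕ) (v : Fib m) : (tr ^ n) v = (v.1 - n, v.2) := by
  induction n with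
  | zero => simp
  | succ n ih =>
    rw [pow_succ', Equiv.Perm.mul_apply, ih, tr_apply]
    ext <;> simp
    ring

lemma sh_pow_apply (n : ℕ) (v : Fib m) : (sh ^ n) v = (v.1, v.2 + n * (2 * v.1 - 1)) := by
  induction n with
  | zero => simp
  | succ n ih =>
    rw [pow_succ', Equiv.Perm.mul_apply, ih, sh_apply]
    ext <;> simp
    ring

/-- Powers of the translation and of the shear commute only if `m` divides `2 * a * b`. -/
lemma dvd_of_commute {a b : ℕ} (h : Commute (tr (m := m) ^ a) (sh ^ b)) : m ∣ 2 * a * b := by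
  have h1 := congrArg (fun f : Equiv.Perm (Fib m) => (f (0, 0)).2) h.eq
  simp only [Equiv.Perm.mul_apply, tr_pow_apply, sh_pow_apply] at h1
  have h2 : ((2 * a * b : ℕ) : ZMod m) = 0 := by
    push_cast
    linear_combination h1
  exact (ZMod.natCast_eq_zero_iff _ _).1 h2

end

end Pool.Agent.Lib.MP_1da757_ag
end

section

/-!
# The covering and the monodromy of the standard loops
-/

open Topology unitInterval Real

namespace Pool.Agent.Lib.MP_1da757_ag

noncomputable section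

/-- the punctures of the first factor -/
def T3 : Set ℝ := {-1, 0, 1}

/-- the puncture of the second factor -/
def T1 : Set ℝ := {0}

/-- the base of the covering -/
abbrev Base : Type := CutPlane T3 × CutPlane T1

/-- transition function over the first factor -/
def hfun (m : ℕ) (r : ℝ) : Equiv.Perm (Fib m) :=
  if r < -1 then 1 else if r < 0 then g3 m else if r < 1 then g3 m * g2 m
    else g3 m * g2 m * g1 m

/-- transition function over the second factor -/
def kfun (m : ℕ) (r : ℝ) : Equiv.Perm (Fib m) := if r < 0 then ze m else 1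

lemma hfun_loc (m : ℕ) : ∀ r ∉ T3, ∀ᶠ r' in 𝓝 r, hfun m r' = hfun m r := by
  intro r hr
  have h1 : r ≠ -1 := fun h => hr (by simp [T3, h])
  have h2 : r ≠ 0 := fun h => hr (by simp [T3, h])
  have h3 : r ≠ 1 := fun h => hr (by simp [T3, h])
  rcases lt_or_gt_of_ne h1 with c1 | c1
  · filter_upwards [Iio_mem_nhds c1] with r' hr'
    have hr' : r' < -1 := hr'
    rw [hfun, hfun, if_pos hr', if_pos c1]
  · rcases lt_or_gt_of_ne h2 with c2 | c2
    · filter_upwards [Ioo_mem_nhds c1 c2] with r' hr'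
      rw [hfun, hfun, if_neg (not_lt.2 hr'.1.le), if_pos hr'.2, if_neg (not_lt.2 c1.le), if_pos c2]
    · rcases lt_or_gt_of_ne h3 with c3 | c3
      · filter_upwards [Ioo_mem_nhds c2 c3] with r' hr'
        have hr1 : ¬ r' < -1 := by linarith [hr'.1]
        rw [hfun, hfun, if_neg hr1, if_neg (not_lt.2 hr'.1.le), if_pos hr'.2,
          if_neg (not_lt.2 c1.le), if_neg (not_lt.2 c2.le), if_pos c3]
      · filter_upwards [Ioi_mem_nhds c3] with r' hr'
        have hr' : 1 < r' := hr'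
        have hr1 : ¬ r' < -1 := by linarith
        have hr2 : ¬ r' < 0 := by linarith
        rw [hfun, hfun, if_neg hr1, if_neg hr2, if_neg (not_lt.2 hr'.le),
          if_neg (not_lt.2 c1.le), if_neg (not_lt.2 c2.le), if_neg (not_lt.2 c3.le)]

lemma kfun_loc (m : ℕ) : ∀ r ∉ T1, ∀ᶠ r' in 𝓝 r, kfun m r' = kfun m r := by
  intro r hr
  have h2 : r ≠ 0 := fun h => hr (by simp [T1, h])
  rcases lt_or_gt_of_ne h2 with c2 | c2
  · filter_upwards [Iio_mem_nhds c2] with r' hr'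
    have hr' : r' < 0 := hr'
    rw [kfun, kfun, if_pos hr', if_pos c2]
  · filter_upwards [Ioi_mem_nhds c2] with r' hr'
    have hr' : 0 < r' := hr'
    rw [kfun, kfun, if_neg (not_lt.2 hr'.le), if_neg (not_lt.2 c2.le)]

lemma hfun_commute (m : ℕ) (r : ℝ) : Commute (hfun m r) (ze m) := by
  unfold hfun
  split_ifs
  · exact Commute.one_left _
  · exact commute_g3
  · exact commute_g3.mul_left commute_g2
  · exact (commute_g3.mul_left commute_g2).mul_left commute_g1

lemma hk_commute (m : ℕ) (r r' : ℝ) : Commute (hfun m r) (kfun m r') := by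
  unfold kfun
  split_ifs
  · exact hfun_commute m r
  · exact Commute.one_right _

lemma finite_T3 : T3.Finite := by
  unfold T3
  exact Set.toFinite _

lemma finite_T1 : T1.Finite := Set.finite_singleton 0

lemma isClosed_T3 : IsClosed T3 := finite_T3.isClosed
lemma isClosed_T1 : IsClosed T1 := finite_T1.isClosed

/-- The gluing data of the covering. -/
def stdGlue (m : ℕ) : Glue Base (Fib m) (Bool × Bool) :=
  (cutGlue T3 isClosed_T3 (hfun m) (hfun_loc m)).prod
    (cutGlue T1 isClosed_T1 (kfun m) (kfun_loc m)) (by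
      intro i j a i' j' b
      have h := hk_commute m a.1.re b.1.re
      change Commute (trans (hfun m) i j a.1.re) (trans (kfun m) i' j' b.1.re)
      cases i <;> cases j <;> cases i' <;> cases j' <;>
        first
        | exact Commute.one_left _
        | exact Commute.one_right _
        | exact h
        | exact h.inv_left
        | exact h.inv_right
        | exact h.inv_inv)

lemma stdGlue_g (m : ℕ) (i j : Bool × Bool) (b : Base) :
    (stdGlue m).g i j b = trans (hfun m) i.1 j.1 b.1.1.re * trans (kfun m) i.2 j.2 b.2.1.re := rfl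

lemma mem_V_iff (m : ℕ) (i : Bool × Bool) (b : Base) :
    b ∈ (stdGlue m).V i ↔ b.1 ∈ slit T3 i.1 ∧ b.2 ∈ slit T1 i.2 := Iff.rfl

/-- The covering map. -/
abbrev cov (m : ℕ) : IsCoveringMap (stdGlue m).proj := (stdGlue m).isCoveringMap

lemma exists_slit {T : Set ℝ} (c : CutPlane T) : ∃ i, c ∈ slit T i := by
  rcases c.2 with h | h
  · rcases lt_or_gt_of_ne h with h1 | h1
    · exact ⟨false, Or.inl h1⟩
    · exact ⟨true, Or.inl h1⟩
  · exact ⟨true, Or.inr h⟩

lemma circle_re_of_im_zero {s : Circle} (h : (s : ℂ).im = 0) : s = 1 ∨ s = -1 := by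
  have h1 : ‖(s : ℂ)‖ = 1 := Circle.norm_coe s
  have h2 : (s : ℂ) = ((s : ℂ).re : ℂ) := by
    apply Complex.ext
    · simp
    · simp [h]
  rw [h2, Complex.norm_real, Real.norm_eq_abs] at h1
  rcases eq_or_eq_neg_of_abs_eq h1 with h3 | h3
  · left
    apply Circle.ext
    rw [h2, h3]
    simp
  · right
    apply Circle.ext
    rw [h2, h3]
    simp

/-- A point of the base. -/
def bpt (a b : ℂ) (ha : a.im ≠ 0 ∨ a.re ∉ T3) (hb : b.im ≠ 0 ∨ b.re ∉ T1) : Base :=
  (⟨a, ha⟩, ⟨b, hb⟩)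

lemma ne_T1 {b : ℂ} (hb : b ≠ 0) : b.im ≠ 0 ∨ b.re ∉ T1 := by
  by_contra h
  push Not at h
  apply hb
  apply Complex.ext
  · have : b.re = 0 := h.2
    simpa using this
  · simpa using h.1

lemma ne_T3 {b : ℂ} (h1 : b ≠ -1) (h2 : b ≠ 0) (h3 : b ≠ 1) : b.im ≠ 0 ∨ b.re ∉ T3 := by
  by_contra h
  push Not at h
  obtain ⟨him, hre⟩ := h
  have key : ∀ r : ℝ, b.re = r → b = r := by
    intro r hr
    apply Complex.ext
    · simpa using hr
    · simpa using him
  rcases hre with hr | hr | hr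
  · exact h1 (by simpa using key _ hr)
  · exact h2 (by simpa using key _ hr)
  · exact h3 (by simpa using key _ hr)

/-- A continuous map to the base. -/
def mkMap {X : Type*} [TopologicalSpace X] (f g : X → ℂ) (hf : Continuous f) (hg : Continuous g)
    (h1 : ∀ x, (f x).im ≠ 0 ∨ (f x).re ∉ T3) (h2 : ∀ x, (g x).im ≠ 0 ∨ (g x).re ∉ T1) :
    C(X, Base) where
  toFun x := bpt (f x) (g x) (h1 x) (h2 x)
  continuous_toFun := (hf.subtype_mk h1).prodMk (hg.subtype_mk h2)

/-- A homotopy between maps to the base, given by formulas. -/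
lemma mk_homotopic {f₀ g₀ f₁ g₁ : Circle → ℂ} {hf₀ : Continuous f₀} {hg₀ : Continuous g₀}
    {hf₁ : Continuous f₁} {hg₁ : Continuous g₁} {a₀ b₀ a₁ b₁} (f g : I × Circle → ℂ)
    (hf : Continuous f) (hg : Continuous g)
    (h1 : ∀ x, (f x).im ≠ 0 ∨ (f x).re ∉ T3) (h2 : ∀ x, (g x).im ≠ 0 ∨ (g x).re ∉ T1)
    (e₀ : ∀ s, f (0, s) = f₀ s) (e₀' : ∀ s, g (0, s) = g₀ s)
    (e₁ : ∀ s, f (1, s) = f₁ s) (e₁' : ∀ s, g (1, s) = g₁ s) :
    (mkMap f₀ g₀ hf₀ hg₀ a₀ b₀).Homotopic (mkMap f₁ g₁ hf₁ hg₁ a₁ b₁) :=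
  ⟨{ toContinuousMap := mkMap f g hf hg h1 h2
     map_zero_left := fun s => Prod.ext (Subtype.ext (e₀ s)) (Subtype.ext (e₀' s))
     map_one_left := fun s => Prod.ext (Subtype.ext (e₁ s)) (Subtype.ext (e₁' s)) }⟩

/-- rotating a complex number to its absolute value -/
def rot (κ : ℂ) (ρ : ℝ) : ℂ := κ * Complex.exp (-(ρ * Complex.arg κ * Complex.I))

lemma rot_zero (κ : ℂ) : rot κ 0 = κ := by simp [rot]

lemma rot_one (κ : ℂ) : rot κ 1 = (‖κ‖ : ℂ) := by
  rw [rot]
  nth_rewrite 1 [← Complex.norm_mul_exp_arg_mul_I κ]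
  rw [mul_assoc, ← Complex.exp_add]
  have : (κ.arg : ℂ) * Complex.I + -(((1 : ℝ) : ℂ) * κ.arg * Complex.I) = 0 := by
    push_cast
    ring
  rw [this, Complex.exp_zero, mul_one]

lemma norm_rot (κ : ℂ) (ρ : ℝ) : ‖rot κ ρ‖ = ‖κ‖ := by
  rw [rot, norm_mul]
  have : -((ρ : ℂ) * Complex.arg κ * Complex.I) = ((-(ρ * Complex.arg κ) : ℝ) : ℂ) * Complex.I := by
    push_cast
    ring
  rw [this, Complex.norm_exp_ofReal_mul_I, mul_one]

lemma continuous_rot (κ : ℂ) : Continuous (rot κ) := by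
  unfold rot
  fun_prop

end

end Pool.Agent.Lib.MP_1da757_ag
end

section

/-!
# Monodromy of the standard circle loops
-/

open Topology unitInterval Real

namespace Pool.Agent.Lib.MP_1da757_ag

noncomputable section

lemma circle_inv_im (s : Circle) : ((s : ℂ)⁻¹).im = -(s : ℂ).im := by
  rw [← Circle.coe_inv, Circle.coe_inv_eq_conj, Complex.conj_im]

lemma circle_inv_re (s : Circle) : ((s : ℂ)⁻¹).re = (s : ℂ).re := by
  rw [← Circle.coe_inv, Circle.coe_inv_eq_conj, Complex.conj_re]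

lemma circle_re_ne {s : Circle} (h : (s : ℂ).im = 0) : (s : ℂ).re = 1 ∨ (s : ℂ).re = -1 := by
  rcases circle_re_of_im_zero h with rfl | rfl
  · left; simp
  · right; simp

/-- the small loops around the punctures of the first factor, real radius -/
lemma monOrd_small_real (m : ℕ) (t : ℝ) (ht : t ∈ T3) (κ : ℝ) (hκ : 0 < κ) (hκ1 : κ < 1)
    (c : CutPlane T1) (hf : Continuous fun s : Circle => (t : ℂ) + κ * s)
    (hg : Continuous fun _ : Circle => c.1)
    (h1 : ∀ s : Circle, ((t : ℂ) + κ * s).im ≠ 0 ∨ ((t : ℂ) + κ * s).re ∉ T3)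
    (h2 : ∀ _ : Circle, c.1.im ≠ 0 ∨ c.1.re ∉ T1) :
    MonOrd (cov m) 2 (mkMap (fun s : Circle => (t : ℂ) + κ * s) (fun _ => c.1) hf hg h1 h2) := by
  obtain ⟨j, hj⟩ := exists_slit c
  have him : ∀ s : Circle, ((t : ℂ) + κ * s).im = κ * (s : ℂ).im := by
    intro s
    simp
  have hmem : ∀ (i : Bool) (s : Circle), (match i with
      | true => 0 ≤ (s : ℂ).im
      | false => (s : ℂ).im ≤ 0) →
      (⟨(t : ℂ) + κ * s, h1 s⟩ : CutPlane T3) ∈ slit T3 i := by
    intro i s hs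
    by_cases h0 : (s : ℂ).im = 0
    · have : ((t : ℂ) + κ * s).re ∉ T3 := by
        rcases h1 s with h | h
        · exact absurd (by rw [him, h0, mul_zero]) h
        · exact h
      cases i
      · exact Or.inr this
      · exact Or.inr this
    · cases i
      · left
        change ((t : ℂ) + κ * s).im < 0
        rw [him]
        exact mul_neg_of_pos_of_neg hκ (lt_of_le_of_ne hs h0)
      · left
        change 0 < ((t : ℂ) + κ * s).im
        rw [him]
        exact mul_pos hκ (lt_of_le_of_ne hs (Ne.symm h0))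
  refine monOrd_of_halves (stdGlue m) (true, j) (false, j) _ ?_ ?_ 2 ?_
  · intro s hs
    exact ⟨hmem true s hs, hj⟩
  · intro s hs
    exact ⟨hmem false s hs, hj⟩
  rw [stdGlue_g, stdGlue_g]
  have e1 : ((t : ℂ) + κ * ((1 : Circle) : ℂ)).re = t + κ := by simp
  have e2 : ((t : ℂ) + κ * ((-1 : Circle) : ℂ)).re = t - κ := by simp; ring
  change (trans (hfun m) false true ((t : ℂ) + κ * ((1 : Circle) : ℂ)).re * trans (kfun m) j j c.1.re
    * (trans (hfun m) true false ((t : ℂ) + κ * ((-1 : Circle) : ℂ)).re *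
      trans (kfun m) j j c.1.re)) ^ 2 = 1
  have e3 : trans (kfun m) j j c.1.re = 1 := by cases j <;> rfl
  rw [e1, e2, e3, mul_one, mul_one]
  change ((hfun m (t + κ))⁻¹ * hfun m (t - κ)) ^ 2 = 1
  rcases ht with rfl | rfl | rfl
  · have a1 : hfun m (-1 + κ) = g3 m := by
      rw [hfun, if_neg (by linarith), if_pos (by linarith)]
    have a2 : hfun m (-1 - κ) = 1 := by rw [hfun, if_pos (by linarith)]
    rw [a1, a2, mul_one, g3_inv, pow_two, g3_sq]
  · have a1 : hfun m (0 + κ) = g3 m * g2 m := by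
      rw [hfun, if_neg (by linarith), if_neg (by linarith), if_pos (by linarith)]
    have a2 : hfun m (0 - κ) = g3 m := by
      rw [hfun, if_neg (by linarith), if_pos (by linarith)]
    rw [a1, a2, mul_inv_rev, inv_mul_cancel_right, g2_inv, pow_two, g2_sq]
  · have a1 : hfun m (1 + κ) = g3 m * g2 m * g1 m := by
      rw [hfun, if_neg (by linarith), if_neg (by linarith), if_neg (by linarith)]
    have a2 : hfun m (1 - κ) = g3 m * g2 m := by
      rw [hfun, if_neg (by linarith), if_neg (by linarith), if_pos (by linarith)]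
    rw [a1, a2, mul_inv_rev, inv_mul_cancel_right, g1_inv, pow_two, g1_sq]

/-- the loop around the fourth line, real parameters -/
lemma monOrd_big_real (m : ℕ) (R r : ℝ) (hR : 1 < R) (hr : 0 < r)
    (hf : Continuous fun s : Circle => (R : ℂ) * (s : ℂ)⁻¹)
    (hg : Continuous fun s : Circle => (r : ℂ) * (s : ℂ))
    (h1 : ∀ s : Circle, ((R : ℂ) * (s : ℂ)⁻¹).im ≠ 0 ∨ ((R : ℂ) * (s : ℂ)⁻¹).re ∉ T3)
    (h2 : ∀ s : Circle, ((r : ℂ) * (s : ℂ)).im ≠ 0 ∨ ((r : ℂ) * (s : ℂ)).re ∉ T1) :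
    MonOrd (cov m) 2 (mkMap (fun s : Circle => (R : ℂ) * (s : ℂ)⁻¹) (fun s => (r : ℂ) * (s : ℂ))
      hf hg h1 h2) := by
  have hR0 : 0 < R := by linarith
  have him : ∀ s : Circle, ((R : ℂ) * (s : ℂ)⁻¹).im = -(R * (s : ℂ).im) := by
    intro s
    rw [Complex.im_ofReal_mul, circle_inv_im]
    ring
  have him' : ∀ s : Circle, ((r : ℂ) * (s : ℂ)).im = r * (s : ℂ).im := by
    intro s
    simp
  have hre : ∀ s : Circle, (s : ℂ).im = 0 → ((R : ℂ) * (s : ℂ)⁻¹).re ∉ T3 := by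
    intro s h0
    rcases h1 s with h | h
    · exact absurd (by rw [him, h0, mul_zero, neg_zero]) h
    · exact h
  have hre' : ∀ s : Circle, (s : ℂ).im = 0 → ((r : ℂ) * (s : ℂ)).re ∉ T1 := by
    intro s h0
    rcases h2 s with h | h
    · exact absurd (by rw [him', h0, mul_zero]) h
    · exact h
  refine monOrd_of_halves (stdGlue m) (false, true) (true, false) _ ?_ ?_ 2 ?_
  · intro s hs
    constructor
    · by_cases h0 : (s : ℂ).im = 0
      · exact Or.inr (hre s h0)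
      · left
        change ((R : ℂ) * (s : ℂ)⁻¹).im < 0
        rw [him, neg_lt_zero]
        exact mul_pos hR0 (lt_of_le_of_ne hs (Ne.symm h0))
    · by_cases h0 : (s : ℂ).im = 0
      · exact Or.inr (hre' s h0)
      · left
        change 0 < ((r : ℂ) * (s : ℂ)).im
        rw [him']
        exact mul_pos hr (lt_of_le_of_ne hs (Ne.symm h0))
  · intro s hs
    constructor
    · by_cases h0 : (s : ℂ).im = 0
      · exact Or.inr (hre s h0)
      · left
        change 0 < ((R : ℂ) * (s : ℂ)⁻¹).im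
        rw [him, neg_pos]
        exact mul_neg_of_pos_of_neg hR0 (lt_of_le_of_ne hs h0)
    · by_cases h0 : (s : ℂ).im = 0
      · exact Or.inr (hre' s h0)
      · left
        change ((r : ℂ) * (s : ℂ)).im < 0
        rw [him']
        exact mul_neg_of_pos_of_neg hr (lt_of_le_of_ne hs h0)
  · rw [stdGlue_g, stdGlue_g]
    change (trans (hfun m) true false ((R : ℂ) * (((1 : Circle) : ℂ))⁻¹).re *
      trans (kfun m) false true ((r : ℂ) * ((1 : Circle) : ℂ)).re
      * (trans (hfun m) false true ((R : ℂ) * (((-1 : Circle) : ℂ))⁻¹).re *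
        trans (kfun m) true false ((r : ℂ) * ((-1 : Circle) : ℂ)).re)) ^ 2 = 1
    have e1 : ((R : ℂ) * (((1 : Circle) : ℂ))⁻¹).re = R := by simp
    have e2 : ((R : ℂ) * (((-1 : Circle) : ℂ))⁻¹).re = -R := by simp
    have e3 : ((r : ℂ) * ((1 : Circle) : ℂ)).re = r := by simp
    have e4 : ((r : ℂ) * ((-1 : Circle) : ℂ)).re = -r := by simp
    rw [e1, e2, e3, e4]
    change (hfun m R * (kfun m r)⁻¹ * ((hfun m (-R))⁻¹ * kfun m (-r))) ^ 2 = 1
    have a1 : hfun m R = g3 m * g2 m * g1 m := by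
      rw [hfun, if_neg (by linarith), if_neg (by linarith), if_neg (by linarith)]
    have a2 : hfun m (-R) = 1 := by rw [hfun, if_pos (by linarith)]
    have a3 : kfun m r = 1 := by rw [kfun, if_neg (by linarith)]
    have a4 : kfun m (-r) = ze m := by rw [kfun, if_pos (by linarith)]
    rw [a1, a2, a3, a4, inv_one, mul_one, one_mul]
    exact quad

/-- the loop around the line at infinity, real parameter -/
lemma monOrd_inf_real (m : ℕ) (c : CutPlane T3) (R : ℝ) (hR : 0 < R)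
    (hf : Continuous fun _ : Circle => c.1)
    (hg : Continuous fun s : Circle => (R : ℂ) * (s : ℂ)⁻¹)
    (h1 : ∀ _ : Circle, c.1.im ≠ 0 ∨ c.1.re ∉ T3)
    (h2 : ∀ s : Circle, ((R : ℂ) * (s : ℂ)⁻¹).im ≠ 0 ∨ ((R : ℂ) * (s : ℂ)⁻¹).re ∉ T1) :
    MonOrd (cov m) m (mkMap (fun _ : Circle => c.1) (fun s => (R : ℂ) * (s : ℂ)⁻¹)
      hf hg h1 h2) := by
  obtain ⟨j, hj⟩ := exists_slit c
  have him : ∀ s : Circle, ((R : ℂ) * (s : ℂ)⁻¹).im = -(R * (s : ℂ).im) := by
    intro s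
    rw [Complex.im_ofReal_mul, circle_inv_im]
    ring
  have hre : ∀ s : Circle, (s : ℂ).im = 0 → ((R : ℂ) * (s : ℂ)⁻¹).re ∉ T1 := by
    intro s h0
    rcases h2 s with h | h
    · exact absurd (by rw [him, h0, mul_zero, neg_zero]) h
    · exact h
  refine monOrd_of_halves (stdGlue m) (j, false) (j, true) _ ?_ ?_ m ?_
  · intro s hs
    refine ⟨hj, ?_⟩
    by_cases h0 : (s : ℂ).im = 0
    · exact Or.inr (hre s h0)
    · left
      change ((R : ℂ) * (s : ℂ)⁻¹).im < 0
      rw [him, neg_lt_zero]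
      exact mul_pos hR (lt_of_le_of_ne hs (Ne.symm h0))
  · intro s hs
    refine ⟨hj, ?_⟩
    by_cases h0 : (s : ℂ).im = 0
    · exact Or.inr (hre s h0)
    · left
      change 0 < ((R : ℂ) * (s : ℂ)⁻¹).im
      rw [him, neg_pos]
      exact mul_neg_of_pos_of_neg hR (lt_of_le_of_ne hs h0)
  · rw [stdGlue_g, stdGlue_g]
    change (trans (hfun m) j j c.1.re *
      trans (kfun m) true false ((R : ℂ) * (((1 : Circle) : ℂ))⁻¹).re
      * (trans (hfun m) j j c.1.re *
        trans (kfun m) false true ((R : ℂ) * (((-1 : Circle) : ℂ))⁻¹).re)) ^ m = 1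
    have e1 : ((R : ℂ) * (((1 : Circle) : ℂ))⁻¹).re = R := by simp
    have e2 : ((R : ℂ) * (((-1 : Circle) : ℂ))⁻¹).re = -R := by simp
    have e3 : trans (hfun m) j j c.1.re = 1 := by cases j <;> rfl
    rw [e1, e2, e3]
    change (1 * kfun m R * (1 * (kfun m (-R))⁻¹)) ^ m = 1
    have a3 : kfun m R = 1 := by rw [kfun, if_neg (by linarith)]
    have a4 : kfun m (-R) = ze m := by rw [kfun, if_pos (by linarith)]
    rw [a3, a4, one_mul, one_mul, one_mul, inv_pow, ze_pow, inv_one]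

end

end Pool.Agent.Lib.MP_1da757_ag
end

section

/-!
# Monodromy around the boundaries of linear discs
-/

open Topology unitInterval Real

namespace Pool.Agent.Lib.MP_1da757_ag

noncomputable section

lemma near_T3 {t : ℝ} (ht : t ∈ T3) {u : ℂ} (hu : u ≠ 0) (hu1 : ‖u‖ < 1) :
    ((t : ℂ) + u).im ≠ 0 ∨ ((t : ℂ) + u).re ∉ T3 := by
  have key : ∀ n : ℤ, n ≠ 0 → u ≠ (n : ℂ) := by
    rintro n hn rfl
    rw [Complex.norm_intCast] at hu1
    have h1 : (1 : ℤ) ≤ |n| := Int.one_le_abs hn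
    have h2 : (1 : ℝ) ≤ |(n : ℝ)| := by exact_mod_cast h1
    linarith
  have k1 := key 1 (by norm_num)
  have k2 := key 2 (by norm_num)
  have k3 := key (-1) (by norm_num)
  have k4 := key (-2) (by norm_num)
  push_cast at k1 k2 k3 k4
  rcases ht with rfl | rfl | rfl
  · refine ne_T3 ?_ ?_ ?_
    · intro h
      apply hu
      push_cast at h
      linear_combination h
    · intro h
      apply k1
      push_cast at h
      linear_combination h
    · intro h
      apply k2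
      push_cast at h
      linear_combination h
  · refine ne_T3 ?_ ?_ ?_
    · intro h
      apply k3
      push_cast at h
      linear_combination h
    · intro h
      apply hu
      push_cast at h
      linear_combination h
    · intro h
      apply k1
      push_cast at h
      linear_combination h
  · refine ne_T3 ?_ ?_ ?_
    · intro h
      apply k4
      push_cast at h
      linear_combination h
    · intro h
      apply k3
      push_cast at h
      linear_combination h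
    · intro h
      apply hu
      push_cast at h
      linear_combination h

lemma far_T3 {u : ℂ} (hu : 1 < ‖u‖) : u.im ≠ 0 ∨ u.re ∉ T3 := by
  refine ne_T3 ?_ ?_ ?_
  · rintro rfl
    simp at hu
  · rintro rfl
    simp at hu
    linarith
  · rintro rfl
    simp at hu

/-- the small loops around the punctures of the first factor -/
lemma monOrd_small (m : ℕ) (t : ℝ) (ht : t ∈ T3) (κ : ℂ) (hκ : κ ≠ 0) (hκ1 : ‖κ‖ < 1)
    (c : ℂ) (hf : Continuous fun s : Circle => (t : ℂ) + κ * s)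
    (hg : Continuous fun _ : Circle => c)
    (h1 : ∀ s : Circle, ((t : ℂ) + κ * s).im ≠ 0 ∨ ((t : ℂ) + κ * s).re ∉ T3)
    (h2 : ∀ _ : Circle, c.im ≠ 0 ∨ c.re ∉ T1) :
    MonOrd (cov m) 2 (mkMap (fun s : Circle => (t : ℂ) + κ * s) (fun _ => c) hf hg h1 h2) := by
  have hpos : 0 < ‖κ‖ := norm_pos_iff.2 hκ
  have hcond : ∀ (ρ : ℝ) (s : Circle), ((t : ℂ) + rot κ ρ * s).im ≠ 0 ∨
      ((t : ℂ) + rot κ ρ * s).re ∉ T3 := by
    intro ρ s
    have hn : ‖rot κ ρ * (s : ℂ)‖ = ‖κ‖ := by rw [norm_mul, norm_rot, Circle.norm_coe, mul_one]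
    apply near_T3 ht
    · rw [← norm_pos_iff, hn]
      exact hpos
    · rw [hn]
      exact hκ1
  refine MonOrd.of_homotopic (mk_homotopic (fun x => (t : ℂ) + rot κ x.1 * x.2) (fun _ => c)
    ?_ continuous_const (fun x => hcond _ _) (fun x => h2 1) ?_ (fun _ => rfl) ?_
    (fun _ => rfl)) (monOrd_small_real m t ht ‖κ‖ hpos hκ1 ⟨c, h2 1⟩ ?_ continuous_const ?_
      (fun _ => h2 1))
  · have h := continuous_rot κ
    fun_prop
  · intro s
    simp only [Set.Icc.coe_zero, rot_zero]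
  · intro s
    simp only [Set.Icc.coe_one, rot_one]
  · fun_prop
  · intro s
    have := hcond 1 s
    rwa [rot_one] at this

/-- the loop around the fourth line -/
lemma monOrd_big (m : ℕ) (A C : ℂ) (hA : 1 < ‖A‖) (hC : C ≠ 0)
    (hf : Continuous fun s : Circle => A * (s : ℂ)⁻¹)
    (hg : Continuous fun s : Circle => C * (s : ℂ))
    (h1 : ∀ s : Circle, (A * (s : ℂ)⁻¹).im ≠ 0 ∨ (A * (s : ℂ)⁻¹).re ∉ T3)
    (h2 : ∀ s : Circle, (C * (s : ℂ)).im ≠ 0 ∨ (C * (s : ℂ)).re ∉ T1) :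
    MonOrd (cov m) 2 (mkMap (fun s : Circle => A * (s : ℂ)⁻¹) (fun s => C * (s : ℂ))
      hf hg h1 h2) := by
  have hpos : 0 < ‖C‖ := norm_pos_iff.2 hC
  have hs0 : ∀ s : Circle, (s : ℂ) ≠ 0 := fun s => Circle.coe_ne_zero s
  have hc1 : ∀ (ρ : ℝ) (s : Circle), (rot A ρ * (s : ℂ)⁻¹).im ≠ 0 ∨
      (rot A ρ * (s : ℂ)⁻¹).re ∉ T3 := by
    intro ρ s
    apply far_T3
    rw [norm_mul, norm_rot, norm_inv, Circle.norm_coe, inv_one, mul_one]
    exact hA
  have hc2 : ∀ (ρ : ℝ) (s : Circle), (rot C ρ * (s : ℂ)).im ≠ 0 ∨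
      (rot C ρ * (s : ℂ)).re ∉ T1 := by
    intro ρ s
    apply ne_T1
    rw [← norm_pos_iff, norm_mul, norm_rot, Circle.norm_coe, mul_one]
    exact hpos
  have hinv : Continuous fun x : I × Circle => ((x.2 : ℂ))⁻¹ :=
    Continuous.inv₀ (by fun_prop) (fun x => hs0 _)
  have hinv' : Continuous fun s : Circle => ((s : ℂ))⁻¹ :=
    Continuous.inv₀ (by fun_prop) (fun x => hs0 _)
  refine MonOrd.of_homotopic (mk_homotopic (fun x => rot A x.1 * (x.2 : ℂ)⁻¹)
    (fun x => rot C x.1 * (x.2 : ℂ)) ?_ ?_ (fun x => hc1 _ _) (fun x => hc2 _ _) ?_ ?_ ?_ ?_)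
    (monOrd_big_real m ‖A‖ ‖C‖ hA hpos ?_ ?_ ?_ ?_)
  · exact ((continuous_rot A).comp (by fun_prop)).mul hinv
  · exact ((continuous_rot C).comp (by fun_prop)).mul (by fun_prop)
  · intro s
    simp only [Set.Icc.coe_zero, rot_zero]
  · intro s
    simp only [Set.Icc.coe_zero, rot_zero]
  · intro s
    simp only [Set.Icc.coe_one, rot_one]
  · intro s
    simp only [Set.Icc.coe_one, rot_one]
  · exact continuous_const.mul hinv'
  · fun_prop
  · intro s
    have := hc1 1 s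
    rwa [rot_one] at this
  · intro s
    have := hc2 1 s
    rwa [rot_one] at this

/-- the loop around the line at infinity -/
lemma monOrd_inf (m : ℕ) (c : ℂ) (A : ℂ) (hA : A ≠ 0)
    (hf : Continuous fun _ : Circle => c)
    (hg : Continuous fun s : Circle => A * (s : ℂ)⁻¹)
    (h1 : ∀ _ : Circle, c.im ≠ 0 ∨ c.re ∉ T3)
    (h2 : ∀ s : Circle, (A * (s : ℂ)⁻¹).im ≠ 0 ∨ (A * (s : ℂ)⁻¹).re ∉ T1) :
    MonOrd (cov m) m (mkMap (fun _ : Circle => c) (fun s => A * (s : ℂ)⁻¹) hf hg h1 h2) := by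
  have hpos : 0 < ‖A‖ := norm_pos_iff.2 hA
  have hs0 : ∀ s : Circle, (s : ℂ) ≠ 0 := fun s => Circle.coe_ne_zero s
  have hc2 : ∀ (ρ : ℝ) (s : Circle), (rot A ρ * (s : ℂ)⁻¹).im ≠ 0 ∨
      (rot A ρ * (s : ℂ)⁻¹).re ∉ T1 := by
    intro ρ s
    apply ne_T1
    rw [← norm_pos_iff, norm_mul, norm_rot, norm_inv, Circle.norm_coe, inv_one, mul_one]
    exact hpos
  have hinv : Continuous fun x : I × Circle => ((x.2 : ℂ))⁻¹ :=
    Continuous.inv₀ (by fun_prop) (fun x => hs0 _)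
  have hinv' : Continuous fun s : Circle => ((s : ℂ))⁻¹ :=
    Continuous.inv₀ (by fun_prop) (fun x => hs0 _)
  refine MonOrd.of_homotopic (mk_homotopic (fun _ => c) (fun x => rot A x.1 * (x.2 : ℂ)⁻¹)
    continuous_const ?_ (fun x => h1 1) (fun x => hc2 _ _) (fun _ => rfl) ?_ (fun _ => rfl) ?_)
    (monOrd_inf_real m ⟨c, h1 1⟩ ‖A‖ hpos continuous_const ?_ (fun _ => h1 1) ?_)
  · exact ((continuous_rot A).comp (by fun_prop)).mul hinv
  · intro s
    simp only [Set.Icc.coe_zero, rot_zero]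
  · intro s
    simp only [Set.Icc.coe_one, rot_one]
  · exact continuous_const.mul hinv'
  · intro s
    have := hc2 1 s
    rwa [rot_one] at this

end

end Pool.Agent.Lib.MP_1da757_ag
end

section

/-!
# Boundaries of linear discs meeting one line
-/

open Topology unitInterval Real

namespace Pool.Agent.Lib.MP_1da757_ag

noncomputable section

lemma norm_ofReal_mul_circle (r : ℝ) (hr : 0 ≤ r) (s : Circle) : ‖(r : ℂ) * (s : ℂ)‖ = r := by
  rw [norm_mul, Circle.norm_coe, mul_one, Complex.norm_real, Real.norm_eq_abs, abs_of_nonneg hr]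

/-- interpolation factor -/
def lam (ε : ℝ) (ρ : ℝ) : ℝ := 1 - ρ * (1 - ε)

lemma lam_zero (ε : ℝ) : lam ε 0 = 1 := by simp [lam]
lemma lam_one (ε : ℝ) : lam ε 1 = ε := by simp [lam]

lemma lam_pos {ε : ℝ} (h0 : 0 < ε) (h1 : ε ≤ 1) (ρ : I) : 0 < lam ε ρ := by
  have h2 : (ρ : ℝ) * (1 - ε) ≤ 1 * (1 - ε) := by
    apply mul_le_mul_of_nonneg_right ρ.2.2
    linarith
  unfold lam
  linarith

lemma lam_le {ε : ℝ} (h1 : ε ≤ 1) (ρ : I) : lam ε ρ ≤ 1 := by
  have h2 : 0 ≤ (ρ : ℝ) * (1 - ε) := mul_nonneg ρ.2.1 (by linarith)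
  unfold lam
  linarith

lemma continuous_lam (ε : ℝ) : Continuous (lam ε) := by
  unfold lam
  fun_prop

lemma exists_eps {a S : ℝ} (ha : 0 < a) (hS : 0 ≤ S) : ∃ ε : ℝ, 0 < ε ∧ ε ≤ 1 ∧ ε * S < a := by
  refine ⟨a / (S + a), by positivity, ?_, ?_⟩
  · rw [div_le_one (by positivity)]
    linarith
  · rw [div_mul_eq_mul_div, div_lt_iff₀ (by positivity)]
    nlinarith

/-- the loop around one of the first three lines -/
theorem monOrd_disc_small (m : ℕ) (t : ℝ) (ht : t ∈ T3) (x0 x1 y0 y1 z0 z1 : ℂ)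
    (hx : ∀ s : ℂ, ‖s‖ ≤ 1 → x0 + s * x1 ≠ 0) (hz : ∀ s : ℂ, ‖s‖ ≤ 1 → z0 + s * z1 ≠ 0)
    (hy : ∀ s : ℂ, ‖s‖ ≤ 1 → s ≠ 0 → ((y0 + s * y1) / (x0 + s * x1)).im ≠ 0 ∨
      ((y0 + s * y1) / (x0 + s * x1)).re ∉ T3)
    (h0 : y0 = t * x0)
    (hf : Continuous fun s : Circle => (y0 + s * y1) / (x0 + s * x1))
    (hg : Continuous fun s : Circle => (x0 + s * x1) / (z0 + s * z1))
    (h1 : ∀ s : Circle, ((y0 + s * y1) / (x0 + s * x1)).im ≠ 0 ∨
      ((y0 + s * y1) / (x0 + s * x1)).re ∉ T3)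
    (h2 : ∀ s : Circle, ((x0 + s * x1) / (z0 + s * z1)).im ≠ 0 ∨
      ((x0 + s * x1) / (z0 + s * z1)).re ∉ T1) :
    MonOrd (cov m) 2 (mkMap (fun s : Circle => (y0 + s * y1) / (x0 + s * x1))
      (fun s => (x0 + s * x1) / (z0 + s * z1)) hf hg h1 h2) := by
  have hx0 : x0 ≠ 0 := by
    have := hx 0 (by simp)
    simpa using this
  have hz0 : z0 ≠ 0 := by
    have := hz 0 (by simp)
    simpa using this
  set d : ℂ := y1 - t * x1 with hd
  have hd0 : d ≠ 0 := by
    intro h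
    have hx1 := hx 1 (by simp)
    have e : (y0 + 1 * y1) / (x0 + 1 * x1) = t := by
      rw [div_eq_iff hx1, h0]
      linear_combination h
    have := hy 1 (by simp) one_ne_zero
    rw [e] at this
    rcases this with h | h
    · exact h (Complex.ofReal_im t)
    · rw [Complex.ofReal_re] at h
      exact h ht
  obtain ⟨ε, hε0, hε1, hε⟩ := exists_eps (norm_pos_iff.2 hx0)
    (add_nonneg (norm_nonneg d) (norm_nonneg x1))
  have hs0 : ∀ s : Circle, (s : ℂ) ≠ 0 := fun s => Circle.coe_ne_zero s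
  have hεC : (ε : ℂ) ≠ 0 := by exact_mod_cast hε0.ne'
  -- first homotopy: shrinking the disc
  have hn1 : ∀ x : I × Circle, ‖((lam ε x.1 : ℝ) : ℂ) * (x.2 : ℂ)‖ ≤ 1 := fun x => by
    rw [norm_ofReal_mul_circle _ (lam_pos hε0 hε1 x.1).le]
    exact lam_le hε1 _
  have hn1' : ∀ x : I × Circle, ((lam ε x.1 : ℝ) : ℂ) * (x.2 : ℂ) ≠ 0 := fun x => by
    rw [← norm_pos_iff, norm_ofReal_mul_circle _ (lam_pos hε0 hε1 x.1).le]
    exact lam_pos hε0 hε1 x.1
  have hlc : Continuous fun x : I × Circle => ((lam ε x.1 : ℝ) : ℂ) := by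
    have := continuous_lam ε
    fun_prop
  -- second homotopy
  have hn2 : ∀ x : I × Circle, ‖(((1 - x.1) * ε : ℝ) : ℂ) * (x.2 : ℂ)‖ ≤ ε := fun x => by
    have h3 : (0 : ℝ) ≤ (1 - x.1) * ε := mul_nonneg (by linarith [x.1.2.2]) hε0.le
    rw [norm_ofReal_mul_circle _ h3]
    have h4 : (x.1 : ℝ) * ε ≥ 0 := mul_nonneg x.1.2.1 hε0.le
    nlinarith
  have hden : ∀ x : I × Circle, ‖(ε : ℂ) * x.2 * d‖ <
      ‖x0 + (((1 - x.1) * ε : ℝ) : ℂ) * (x.2 : ℂ) * x1‖ := by
    intro x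
    have h3 : ‖(ε : ℂ) * x.2 * d‖ = ε * ‖d‖ := by
      rw [norm_mul, norm_ofReal_mul_circle _ hε0.le]
    have h4 : ‖x0‖ - ε * ‖x1‖ ≤ ‖x0 + (((1 - x.1) * ε : ℝ) : ℂ) * (x.2 : ℂ) * x1‖ := by
      have h5 := norm_sub_le (x0 + (((1 - x.1) * ε : ℝ) : ℂ) * (x.2 : ℂ) * x1)
        ((((1 - x.1) * ε : ℝ) : ℂ) * (x.2 : ℂ) * x1)
      rw [add_sub_cancel_right, norm_mul ((((1 - x.1) * ε : ℝ) : ℂ) * (x.2 : ℂ)) x1] at h5
      have h6 := mul_le_mul_of_nonneg_right (hn2 x) (norm_nonneg x1)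
      linarith
    rw [h3]
    nlinarith
  have hxd : ∀ x : I × Circle, x0 + (((1 - x.1) * ε : ℝ) : ℂ) * (x.2 : ℂ) * x1 ≠ 0 := fun x =>
    norm_pos_iff.1 (lt_of_le_of_lt (norm_nonneg _) (hden x))
  have hzd : ∀ x : I × Circle, z0 + (((1 - x.1) * ε : ℝ) : ℂ) * (x.2 : ℂ) * z1 ≠ 0 := fun x =>
    hz _ ((hn2 x).trans hε1)
  have hxlc : Continuous fun x : I × Circle =>
      (x0 + (((1 - x.1) * ε : ℝ) : ℂ) * (x.2 : ℂ) * x1) := by fun_prop
  have hzlc : Continuous fun x : I × Circle =>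
      (z0 + (((1 - x.1) * ε : ℝ) : ℂ) * (x.2 : ℂ) * z1) := by fun_prop
  -- the intermediate loop
  have hfm : Continuous fun s : Circle => (y0 + ε * s * y1) / (x0 + ε * s * x1) := by
    refine Continuous.div (by fun_prop) (by fun_prop) fun s => hx _ ?_
    rw [norm_ofReal_mul_circle _ hε0.le]
    exact hε1
  have hgm : Continuous fun s : Circle => (x0 + ε * s * x1) / (z0 + ε * s * z1) := by
    refine Continuous.div (by fun_prop) (by fun_prop) fun s => hz _ ?_
    rw [norm_ofReal_mul_circle _ hε0.le]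
    exact hε1
  have hm1 : ∀ s : Circle, ((y0 + ε * s * y1) / (x0 + ε * s * x1)).im ≠ 0 ∨
      ((y0 + ε * s * y1) / (x0 + ε * s * x1)).re ∉ T3 := fun s => by
    apply hy
    · rw [norm_ofReal_mul_circle _ hε0.le]
      exact hε1
    · exact mul_ne_zero hεC (hs0 s)
  have hm2 : ∀ s : Circle, ((x0 + ε * s * x1) / (z0 + ε * s * z1)).im ≠ 0 ∨
      ((x0 + ε * s * x1) / (z0 + ε * s * z1)).re ∉ T1 := fun s => by
    apply ne_T1
    apply div_ne_zero
    · apply hx
      rw [norm_ofReal_mul_circle _ hε0.le]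
      exact hε1
    · apply hz
      rw [norm_ofReal_mul_circle _ hε0.le]
      exact hε1
  have H1 : (mkMap (fun s : Circle => (y0 + s * y1) / (x0 + s * x1))
      (fun s => (x0 + s * x1) / (z0 + s * z1)) hf hg h1 h2).Homotopic
      (mkMap (fun s : Circle => (y0 + ε * s * y1) / (x0 + ε * s * x1))
      (fun s => (x0 + ε * s * x1) / (z0 + ε * s * z1)) hfm hgm hm1 hm2) := by
    refine mk_homotopic
      (fun x => (y0 + ((lam ε x.1 : ℝ) : ℂ) * x.2 * y1) / (x0 + ((lam ε x.1 : ℝ) : ℂ) * x.2 * x1))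
      (fun x => (x0 + ((lam ε x.1 : ℝ) : ℂ) * x.2 * x1) / (z0 + ((lam ε x.1 : ℝ) : ℂ) * x.2 * z1))
      ?_ ?_ ?_ ?_ ?_ ?_ ?_ ?_
    · exact Continuous.div (by fun_prop) (by fun_prop) fun x => hx _ (hn1 x)
    · exact Continuous.div (by fun_prop) (by fun_prop) fun x => hz _ (hn1 x)
    · exact fun x => hy _ (hn1 x) (hn1' x)
    · exact fun x => ne_T1 (div_ne_zero (hx _ (hn1 x)) (hz _ (hn1 x)))
    · intro s
      simp only [Set.Icc.coe_zero, lam_zero, Complex.ofReal_one, one_mul]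
    · intro s
      simp only [Set.Icc.coe_zero, lam_zero, Complex.ofReal_one, one_mul]
    · intro s
      simp only [Set.Icc.coe_one, lam_one]
    · intro s
      simp only [Set.Icc.coe_one, lam_one]
  have hκ : (ε : ℂ) * d / x0 ≠ 0 := div_ne_zero (mul_ne_zero hεC hd0) hx0
  have hκ1 : ‖(ε : ℂ) * d / x0‖ < 1 := by
    rw [norm_div, norm_mul, Complex.norm_real, Real.norm_eq_abs, abs_of_pos hε0,
      div_lt_one (norm_pos_iff.2 hx0)]
    nlinarith [norm_nonneg x1]
  have H2 : (mkMap (fun s : Circle => (y0 + ε * s * y1) / (x0 + ε * s * x1))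
      (fun s => (x0 + ε * s * x1) / (z0 + ε * s * z1)) hfm hgm hm1 hm2).Homotopic
      (mkMap (fun s : Circle => (t : ℂ) + (ε : ℂ) * d / x0 * s) (fun _ => x0 / z0) (by fun_prop)
        continuous_const (fun s => near_T3 ht (mul_ne_zero hκ (hs0 s)) (by
          rw [norm_mul, Circle.norm_coe, mul_one]
          exact hκ1)) (fun _ => ne_T1 (div_ne_zero hx0 hz0))) := by
    refine mk_homotopic
      (fun x => (t : ℂ) + (ε : ℂ) * x.2 * d / (x0 + (((1 - x.1) * ε : ℝ) : ℂ) * (x.2 : ℂ) * x1))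
      (fun x => (x0 + (((1 - x.1) * ε : ℝ) : ℂ) * (x.2 : ℂ) * x1) /
        (z0 + (((1 - x.1) * ε : ℝ) : ℂ) * (x.2 : ℂ) * z1)) ?_ ?_ ?_ ?_ ?_ ?_ ?_ ?_
    · exact continuous_const.add (Continuous.div (by fun_prop) hxlc hxd)
    · exact Continuous.div hxlc hzlc hzd
    · intro x
      apply near_T3 ht
      · exact div_ne_zero (mul_ne_zero (mul_ne_zero hεC (hs0 _)) hd0) (hxd x)
      · rw [norm_div, div_lt_one (norm_pos_iff.2 (hxd x))]
        exact hden x
    · intro x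
      exact ne_T1 (div_ne_zero (hxd x) (hzd x))
    · intro s
      have h3 := hxd (0, s)
      simp only [Set.Icc.coe_zero, sub_zero, one_mul] at h3 ⊢
      rw [eq_div_iff h3, add_mul, div_mul_cancel₀ _ h3, h0, hd]
      ring
    · intro s
      simp only [Set.Icc.coe_zero, sub_zero, one_mul]
    · intro s
      simp only [Set.Icc.coe_one, sub_self, zero_mul, Complex.ofReal_zero, add_zero]
      ring
    · intro s
      simp only [Set.Icc.coe_one, sub_self, zero_mul, Complex.ofReal_zero, add_zero]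
  exact MonOrd.of_homotopic (H1.trans H2) (monOrd_small m t ht _ hκ hκ1 _ _ _ _ _)

/-- the loop around the fourth line -/
theorem monOrd_disc_big (m : ℕ) (x1 y0 y1 z0 z1 : ℂ) (hx1 : x1 ≠ 0)
    (hy0 : y0 ≠ 0) (hz : ∀ s : ℂ, ‖s‖ ≤ 1 → z0 + s * z1 ≠ 0)
    (hy : ∀ s : ℂ, ‖s‖ ≤ 1 → s ≠ 0 → ((y0 + s * y1) / (s * x1)).im ≠ 0 ∨
      ((y0 + s * y1) / (s * x1)).re ∉ T3)
    (hf : Continuous fun s : Circle => (y0 + s * y1) / (s * x1))
    (hg : Continuous fun s : Circle => (s * x1) / (z0 + s * z1))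
    (h1 : ∀ s : Circle, ((y0 + s * y1) / (s * x1)).im ≠ 0 ∨
      ((y0 + s * y1) / (s * x1)).re ∉ T3)
    (h2 : ∀ s : Circle, ((s * x1) / (z0 + s * z1)).im ≠ 0 ∨
      ((s * x1) / (z0 + s * z1)).re ∉ T1) :
    MonOrd (cov m) 2 (mkMap (fun s : Circle => (y0 + s * y1) / (s * x1))
      (fun s => (s * x1) / (z0 + s * z1)) hf hg h1 h2) := by
  have hz0 : z0 ≠ 0 := by
    have := hz 0 (by simp)
    simpa using this
  obtain ⟨ε, hε0, hε1, hε⟩ := exists_eps (norm_pos_iff.2 hy0)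
    (add_nonneg (norm_nonneg y1) (norm_nonneg x1))
  have hs0 : ∀ s : Circle, (s : ℂ) ≠ 0 := fun s => Circle.coe_ne_zero s
  have hεC : (ε : ℂ) ≠ 0 := by exact_mod_cast hε0.ne'
  have hn1 : ∀ x : I × Circle, ‖((lam ε x.1 : ℝ) : ℂ) * (x.2 : ℂ)‖ ≤ 1 := fun x => by
    rw [norm_ofReal_mul_circle _ (lam_pos hε0 hε1 x.1).le]
    exact lam_le hε1 _
  have hn1' : ∀ x : I × Circle, ((lam ε x.1 : ℝ) : ℂ) * (x.2 : ℂ) ≠ 0 := fun x => by
    rw [← norm_pos_iff, norm_ofReal_mul_circle _ (lam_pos hε0 hε1 x.1).le]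
    exact lam_pos hε0 hε1 x.1
  have hlc : Continuous fun x : I × Circle => ((lam ε x.1 : ℝ) : ℂ) := by
    have := continuous_lam ε
    fun_prop
  have hn2 : ∀ x : I × Circle, ‖(((1 - x.1) * ε : ℝ) : ℂ) * (x.2 : ℂ)‖ ≤ ε := fun x => by
    have h3 : (0 : ℝ) ≤ (1 - x.1) * ε := mul_nonneg (by linarith [x.1.2.2]) hε0.le
    rw [norm_ofReal_mul_circle _ h3]
    have h4 : (x.1 : ℝ) * ε ≥ 0 := mul_nonneg x.1.2.1 hε0.le
    nlinarith
  have hεs : ∀ s : Circle, (ε : ℂ) * s * x1 ≠ 0 := fun s =>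
    mul_ne_zero (mul_ne_zero hεC (hs0 s)) hx1
  have hnum : ∀ x : I × Circle, ‖(ε : ℂ) * x.2 * x1‖ <
      ‖y0 + (((1 - x.1) * ε : ℝ) : ℂ) * (x.2 : ℂ) * y1‖ := by
    intro x
    have h3 : ‖(ε : ℂ) * x.2 * x1‖ = ε * ‖x1‖ := by
      rw [norm_mul, norm_ofReal_mul_circle _ hε0.le]
    have h4 : ‖y0‖ - ε * ‖y1‖ ≤ ‖y0 + (((1 - x.1) * ε : ℝ) : ℂ) * (x.2 : ℂ) * y1‖ := by
      have h5 := norm_sub_le (y0 + (((1 - x.1) * ε : ℝ) : ℂ) * (x.2 : ℂ) * y1)
        ((((1 - x.1) * ε : ℝ) : ℂ) * (x.2 : ℂ) * y1)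
      rw [add_sub_cancel_right, norm_mul ((((1 - x.1) * ε : ℝ) : ℂ) * (x.2 : ℂ)) y1] at h5
      have h6 := mul_le_mul_of_nonneg_right (hn2 x) (norm_nonneg y1)
      linarith
    rw [h3]
    nlinarith
  have hzd : ∀ x : I × Circle, z0 + (((1 - x.1) * ε : ℝ) : ℂ) * (x.2 : ℂ) * z1 ≠ 0 := fun x =>
    hz _ ((hn2 x).trans hε1)
  have hylc : Continuous fun x : I × Circle =>
      (y0 + (((1 - x.1) * ε : ℝ) : ℂ) * (x.2 : ℂ) * y1) := by fun_prop
  have hzlc : Continuous fun x : I × Circle =>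
      (z0 + (((1 - x.1) * ε : ℝ) : ℂ) * (x.2 : ℂ) * z1) := by fun_prop
  have hfm : Continuous fun s : Circle => (y0 + ε * s * y1) / ((ε : ℂ) * s * x1) :=
    Continuous.div (by fun_prop) (by fun_prop) fun s => hεs s
  have hgm : Continuous fun s : Circle => ((ε : ℂ) * s * x1) / (z0 + ε * s * z1) := by
    refine Continuous.div (by fun_prop) (by fun_prop) fun s => hz _ ?_
    rw [norm_ofReal_mul_circle _ hε0.le]
    exact hε1
  have hm1 : ∀ s : Circle, ((y0 + ε * s * y1) / ((ε : ℂ) * s * x1)).im ≠ 0 ∨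
      ((y0 + ε * s * y1) / ((ε : ℂ) * s * x1)).re ∉ T3 := fun s => by
    apply hy
    · rw [norm_ofReal_mul_circle _ hε0.le]
      exact hε1
    · exact mul_ne_zero hεC (hs0 s)
  have hm2 : ∀ s : Circle, (((ε : ℂ) * s * x1) / (z0 + ε * s * z1)).im ≠ 0 ∨
      (((ε : ℂ) * s * x1) / (z0 + ε * s * z1)).re ∉ T1 := fun s => by
    apply ne_T1
    apply div_ne_zero (hεs s)
    apply hz
    rw [norm_ofReal_mul_circle _ hε0.le]
    exact hε1
  have H1 : (mkMap (fun s : Circle => (y0 + s * y1) / (s * x1))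
      (fun s => (s * x1) / (z0 + s * z1)) hf hg h1 h2).Homotopic
      (mkMap (fun s : Circle => (y0 + ε * s * y1) / ((ε : ℂ) * s * x1))
      (fun s => ((ε : ℂ) * s * x1) / (z0 + ε * s * z1)) hfm hgm hm1 hm2) := by
    refine mk_homotopic
      (fun x => (y0 + ((lam ε x.1 : ℝ) : ℂ) * x.2 * y1) / (((lam ε x.1 : ℝ) : ℂ) * x.2 * x1))
      (fun x => (((lam ε x.1 : ℝ) : ℂ) * x.2 * x1) / (z0 + ((lam ε x.1 : ℝ) : ℂ) * x.2 * z1))
      ?_ ?_ ?_ ?_ ?_ ?_ ?_ ?_
    · exact Continuous.div (by fun_prop) (by fun_prop) fun x => mul_ne_zero (hn1' x) hx1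
    · exact Continuous.div (by fun_prop) (by fun_prop) fun x => hz _ (hn1 x)
    · exact fun x => hy _ (hn1 x) (hn1' x)
    · exact fun x => ne_T1 (div_ne_zero (mul_ne_zero (hn1' x) hx1) (hz _ (hn1 x)))
    · intro s
      simp only [Set.Icc.coe_zero, lam_zero, Complex.ofReal_one, one_mul]
    · intro s
      simp only [Set.Icc.coe_zero, lam_zero, Complex.ofReal_one, one_mul]
    · intro s
      simp only [Set.Icc.coe_one, lam_one]
    · intro s
      simp only [Set.Icc.coe_one, lam_one]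
  have hA : 1 < ‖y0 / (ε * x1)‖ := by
    have h3 : 0 < ‖(ε : ℂ) * x1‖ := norm_pos_iff.2 (mul_ne_zero hεC hx1)
    rw [norm_div, one_lt_div h3, norm_mul, Complex.norm_real, Real.norm_eq_abs, abs_of_pos hε0]
    nlinarith [norm_nonneg y1]
  have hC : (ε : ℂ) * x1 / z0 ≠ 0 := div_ne_zero (mul_ne_zero hεC hx1) hz0
  have hfe : Continuous fun s : Circle => y0 / (ε * x1) * (s : ℂ)⁻¹ :=
    continuous_const.mul (Continuous.inv₀ (by fun_prop) hs0)
  have hge : Continuous fun s : Circle => (ε : ℂ) * x1 / z0 * (s : ℂ) := by fun_prop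
  have he1 : ∀ s : Circle, (y0 / (ε * x1) * (s : ℂ)⁻¹).im ≠ 0 ∨
      (y0 / (ε * x1) * (s : ℂ)⁻¹).re ∉ T3 := fun s => by
    apply far_T3
    rw [norm_mul, norm_inv, Circle.norm_coe, inv_one, mul_one]
    exact hA
  have he2 : ∀ s : Circle, ((ε : ℂ) * x1 / z0 * (s : ℂ)).im ≠ 0 ∨
      ((ε : ℂ) * x1 / z0 * (s : ℂ)).re ∉ T1 := fun s => ne_T1 (mul_ne_zero hC (hs0 s))
  have H2 : (mkMap (fun s : Circle => (y0 + ε * s * y1) / ((ε : ℂ) * s * x1))
      (fun s => ((ε : ℂ) * s * x1) / (z0 + ε * s * z1)) hfm hgm hm1 hm2).Homotopic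
      (mkMap (fun s : Circle => y0 / (ε * x1) * (s : ℂ)⁻¹) (fun s => (ε : ℂ) * x1 / z0 * (s : ℂ))
        hfe hge he1 he2) := by
    refine mk_homotopic
      (fun x => (y0 + (((1 - x.1) * ε : ℝ) : ℂ) * (x.2 : ℂ) * y1) / ((ε : ℂ) * x.2 * x1))
      (fun x => ((ε : ℂ) * x.2 * x1) /
        (z0 + (((1 - x.1) * ε : ℝ) : ℂ) * (x.2 : ℂ) * z1)) ?_ ?_ ?_ ?_ ?_ ?_ ?_ ?_
    · exact Continuous.div hylc (by fun_prop) fun x => hεs _
    · exact Continuous.div (by fun_prop) hzlc hzd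
    · intro x
      apply far_T3
      rw [norm_div, one_lt_div (norm_pos_iff.2 (hεs _))]
      exact hnum x
    · intro x
      exact ne_T1 (div_ne_zero (hεs _) (hzd x))
    · intro s
      simp only [Set.Icc.coe_zero, sub_zero, one_mul]
    · intro s
      simp only [Set.Icc.coe_zero, sub_zero, one_mul]
    · intro s
      have h3 := hs0 s
      simp only [Set.Icc.coe_one, sub_self, zero_mul, Complex.ofReal_zero, add_zero]
      field_simp
    · intro s
      simp only [Set.Icc.coe_one, sub_self, zero_mul, Complex.ofReal_zero, add_zero]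
      field_simp
  exact MonOrd.of_homotopic (H1.trans H2) (monOrd_big m _ _ hA hC _ _ _ _)

/-- the loop around the line at infinity -/
theorem monOrd_disc_inf (m : ℕ) (x0 x1 y0 y1 z1 : ℂ) (hz1 : z1 ≠ 0)
    (hx : ∀ s : ℂ, ‖s‖ ≤ 1 → x0 + s * x1 ≠ 0)
    (hy : ∀ s : ℂ, ‖s‖ ≤ 1 → ((y0 + s * y1) / (x0 + s * x1)).im ≠ 0 ∨
      ((y0 + s * y1) / (x0 + s * x1)).re ∉ T3)
    (hf : Continuous fun s : Circle => (y0 + s * y1) / (x0 + s * x1))
    (hg : Continuous fun s : Circle => (x0 + s * x1) / (s * z1))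
    (h1 : ∀ s : Circle, ((y0 + s * y1) / (x0 + s * x1)).im ≠ 0 ∨
      ((y0 + s * y1) / (x0 + s * x1)).re ∉ T3)
    (h2 : ∀ s : Circle, ((x0 + s * x1) / (s * z1)).im ≠ 0 ∨
      ((x0 + s * x1) / (s * z1)).re ∉ T1) :
    MonOrd (cov m) m (mkMap (fun s : Circle => (y0 + s * y1) / (x0 + s * x1))
      (fun s => (x0 + s * x1) / (s * z1)) hf hg h1 h2) := by
  have hx0 : x0 ≠ 0 := by
    have := hx 0 (by simp)
    simpa using this
  have hs0 : ∀ s : Circle, (s : ℂ) ≠ 0 := fun s => Circle.coe_ne_zero s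
  have hn2 : ∀ x : I × Circle, ‖((1 - x.1 : ℝ) : ℂ) * (x.2 : ℂ)‖ ≤ 1 := fun x => by
    rw [norm_ofReal_mul_circle _ (by linarith [x.1.2.2])]
    linarith [x.1.2.1]
  have hxlc : Continuous fun x : I × Circle =>
      (x0 + ((1 - x.1 : ℝ) : ℂ) * (x.2 : ℂ) * x1) := by fun_prop
  have hylc : Continuous fun x : I × Circle =>
      (y0 + ((1 - x.1 : ℝ) : ℂ) * (x.2 : ℂ) * y1) := by fun_prop
  have hc0 : (y0 / x0).im ≠ 0 ∨ (y0 / x0).re ∉ T3 := by
    have := hy 0 (by simp)
    simpa using this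
  have hA : x0 / z1 ≠ 0 := div_ne_zero hx0 hz1
  have hge : Continuous fun s : Circle => x0 / z1 * (s : ℂ)⁻¹ :=
    continuous_const.mul (Continuous.inv₀ (by fun_prop) hs0)
  have he2 : ∀ s : Circle, (x0 / z1 * (s : ℂ)⁻¹).im ≠ 0 ∨ (x0 / z1 * (s : ℂ)⁻¹).re ∉ T1 :=
    fun s => ne_T1 (mul_ne_zero hA (inv_ne_zero (hs0 s)))
  refine MonOrd.of_homotopic (mk_homotopic
      (fun x => (y0 + ((1 - x.1 : ℝ) : ℂ) * (x.2 : ℂ) * y1) /
        (x0 + ((1 - x.1 : ℝ) : ℂ) * (x.2 : ℂ) * x1))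
      (fun x => (x0 + ((1 - x.1 : ℝ) : ℂ) * (x.2 : ℂ) * x1) / (x.2 * z1)) ?_ ?_ ?_ ?_ ?_ ?_ ?_ ?_)
      (monOrd_inf m (y0 / x0) _ hA continuous_const hge (fun _ => hc0) he2)
  · exact Continuous.div hylc hxlc fun x => hx _ (hn2 x)
  · exact Continuous.div hxlc (by fun_prop) fun x => mul_ne_zero (hs0 _) hz1
  · exact fun x => hy _ (hn2 x)
  · exact fun x => ne_T1 (div_ne_zero (hx _ (hn2 x)) (mul_ne_zero (hs0 _) hz1))
  · intro s
    simp only [Set.Icc.coe_zero, sub_zero, Complex.ofReal_one, one_mul]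
  · intro s
    simp only [Set.Icc.coe_zero, sub_zero, Complex.ofReal_one, one_mul]
  · intro s
    simp only [Set.Icc.coe_one, sub_self, zero_mul, Complex.ofReal_zero, add_zero]
  · intro s
    have h3 := hs0 s
    simp only [Set.Icc.coe_one, sub_self, zero_mul, Complex.ofReal_zero, add_zero]
    field_simp

end

end Pool.Agent.Lib.MP_1da757_ag
end

section

/-!
# Two explicit loops in the base and their monodromy; connectedness of the base
-/

open Topology unitInterval Real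

namespace Pool.Agent.Lib.MP_1da757_ag

noncomputable section

/-- straight segments in a cut plane -/
def segp {T : Set ℝ} (x y : CutPlane T)
    (h : ∀ s : I, (x.1 + (s : ℝ) * (y.1 - x.1)).im ≠ 0 ∨ (x.1 + (s : ℝ) * (y.1 - x.1)).re ∉ T) :
    Path x y where
  toFun s := ⟨x.1 + (s : ℝ) * (y.1 - x.1), h s⟩
  continuous_toFun := by
    apply Continuous.subtype_mk
    fun_prop
  source' := Subtype.ext (by simp)
  target' := Subtype.ext (by simp)

/-- the point `I` -/
def ptUp : CutPlane T3 := ⟨Complex.I, Or.inl (by simp)⟩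

/-- the point `-I` -/
def ptDn : CutPlane T3 := ⟨-Complex.I, Or.inl (by simp)⟩

/-- a real point -/
def ptMid (r : ℝ) (hr : r ∉ T3) : CutPlane T3 := ⟨(r : ℂ), Or.inr (by simpa using hr)⟩

/-- the base point -/
def bpt1 : CutPlane T1 := ⟨1, Or.inr (by simp [T1])⟩

/-- from the point `I` to a real point -/
def segA (r : ℝ) (hr : r ∉ T3) : Path ptUp (ptMid r hr) :=
  segp ptUp (ptMid r hr) (by
    intro s
    have him : (ptUp.1 + (s : ℝ) * ((ptMid r hr).1 - ptUp.1)).im = 1 - s := by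
      simp [ptUp, ptMid]
      ring
    have hre : (ptUp.1 + (s : ℝ) * ((ptMid r hr).1 - ptUp.1)).re = s * r := by
      simp [ptUp, ptMid]
    by_cases hs : (s : ℝ) = 1
    · right
      rw [hre, hs, one_mul]
      exact hr
    · left
      rw [him]
      intro h
      apply hs
      linarith)

/-- from a real point to `-I` -/
def segB (r : ℝ) (hr : r ∉ T3) : Path (ptMid r hr) ptDn :=
  segp (ptMid r hr) ptDn (by
    intro s
    have him : ((ptMid r hr).1 + (s : ℝ) * (ptDn.1 - (ptMid r hr).1)).im = -s := by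
      simp [ptDn, ptMid]
    have hre : ((ptMid r hr).1 + (s : ℝ) * (ptDn.1 - (ptMid r hr).1)).re = (1 - s) * r := by
      simp [ptDn, ptMid]
      ring
    by_cases hs : (s : ℝ) = 0
    · right
      rw [hre, hs, sub_zero, one_mul]
      exact hr
    · left
      rw [him]
      intro h
      apply hs
      linarith)

lemma segA_mem (r : ℝ) (hr : r ∉ T3) (s : I) : segA r hr s ∈ slit T3 true := by
  by_cases h1 : (segA r hr s).1.im = 0
  · right
    rcases (segA r hr s).2 with h | h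
    · exact absurd h1 h
    · exact h
  · left
    have him : (segA r hr s).1.im = 1 - s := by
      change (ptUp.1 + (s : ℝ) * ((ptMid r hr).1 - ptUp.1)).im = 1 - s
      simp [ptUp, ptMid]
      ring
    have h2 : 0 ≤ (segA r hr s).1.im := by
      rw [him]
      linarith [s.2.2]
    exact lt_of_le_of_ne h2 (Ne.symm h1)

lemma segB_mem (r : ℝ) (hr : r ∉ T3) (s : I) : segB r hr s ∈ slit T3 false := by
  by_cases h1 : (segB r hr s).1.im = 0
  · right
    rcases (segB r hr s).2 with h | h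
    · exact absurd h1 h
    · exact h
  · left
    have him : (segB r hr s).1.im = -s := by
      change ((ptMid r hr).1 + (s : ℝ) * (ptDn.1 - (ptMid r hr).1)).im = -s
      simp [ptDn, ptMid]
    have h2 : (segB r hr s).1.im ≤ 0 := by
      rw [him]
      linarith [s.2.1]
    exact lt_of_le_of_ne h2 h1

/-- the loop through two real points, in the base -/
def beta (r r' : ℝ) (hr : r ∉ T3) (hr' : r' ∉ T3) : Path ((ptUp, bpt1) : Base) (ptUp, bpt1) :=
  (((segA r hr).prod (Path.refl bpt1)).trans ((segB r hr).prod (Path.refl bpt1))).trans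
    (((segB r' hr').symm.prod (Path.refl bpt1)).trans ((segA r' hr').symm.prod (Path.refl bpt1)))

lemma bpt1_mem : bpt1 ∈ slit T1 true := Or.inr (by simp [bpt1, T1])

lemma monodromy_beta (m : ℕ) (r r' : ℝ) (hr : r ∉ T3) (hr' : r' ∉ T3) (v : Fib m) :
    (cov m).monodromy (Path.Homotopic.Quotient.mk (beta r r' hr hr'))
      ((stdGlue m).pt (true, true) (ptUp, bpt1) v) =
      (stdGlue m).pt (true, true) (ptUp, bpt1) (((hfun m r')⁻¹ * hfun m r) v) := by
  have hA : ∀ (r : ℝ) (hr : r ∉ T3) (s : I),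
      ((segA r hr).prod (Path.refl bpt1)) s ∈ (stdGlue m).V (true, true) := fun r hr s =>
    ⟨segA_mem r hr s, bpt1_mem⟩
  have hB : ∀ (r : ℝ) (hr : r ∉ T3) (s : I),
      ((segB r hr).prod (Path.refl bpt1)) s ∈ (stdGlue m).V (false, true) := fun r hr s =>
    ⟨segB_mem r hr s, bpt1_mem⟩
  have hA' : ∀ (r : ℝ) (hr : r ∉ T3) (s : I),
      ((segA r hr).symm.prod (Path.refl bpt1)) s ∈ (stdGlue m).V (true, true) := fun r hr s =>
    ⟨segA_mem r hr _, bpt1_mem⟩
  have hB' : ∀ (r : ℝ) (hr : r ∉ T3) (s : I),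
      ((segB r hr).symm.prod (Path.refl bpt1)) s ∈ (stdGlue m).V (false, true) := fun r hr s =>
    ⟨segB_mem r hr _, bpt1_mem⟩
  have hmt : ∀ (r : ℝ) (hr : r ∉ T3), ((ptMid r hr, bpt1) : Base) ∈ (stdGlue m).V (true, true) :=
    fun r hr => ⟨Or.inr (by simpa [ptMid] using hr), bpt1_mem⟩
  have hmf : ∀ (r : ℝ) (hr : r ∉ T3), ((ptMid r hr, bpt1) : Base) ∈ (stdGlue m).V (false, true) :=
    fun r hr => ⟨Or.inr (by simpa [ptMid] using hr), bpt1_mem⟩
  unfold beta
  rw [monodromy_mk_trans, monodromy_mk_trans, monodromy_mk_trans,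
    (stdGlue m).monodromy_pt (true, true) _ (hA r hr) v,
    (stdGlue m).pt_change (true, true) (false, true) _ (hmt r hr) (hmf r hr),
    (stdGlue m).monodromy_pt (false, true) _ (hB r hr),
    (stdGlue m).monodromy_pt (false, true) _ (hB' r' hr'),
    (stdGlue m).pt_change (false, true) (true, true) _ (hmf r' hr') (hmt r' hr'),
    (stdGlue m).monodromy_pt (true, true) _ (hA' r' hr')]
  congr 1

lemma notMem_T3 {r : ℝ} (h1 : r ≠ -1) (h2 : r ≠ 0) (h3 : r ≠ 1) : r ∉ T3 := by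
  simp [T3, h1, h2, h3]

/-- the first loop -/
def alpha : Path ((ptUp, bpt1) : Base) (ptUp, bpt1) :=
  beta (-1/2) 2 (notMem_T3 (by norm_num) (by norm_num) (by norm_num))
    (notMem_T3 (by norm_num) (by norm_num) (by norm_num))

/-- the second loop -/
def alpha' : Path ((ptUp, bpt1) : Base) (ptUp, bpt1) :=
  beta (-2) (1/2) (notMem_T3 (by norm_num) (by norm_num) (by norm_num))
    (notMem_T3 (by norm_num) (by norm_num) (by norm_num))

lemma monodromy_alpha (m : ℕ) (v : Fib m) :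
    (cov m).monodromy (Path.Homotopic.Quotient.mk alpha)
      ((stdGlue m).pt (true, true) (ptUp, bpt1) v) =
      (stdGlue m).pt (true, true) (ptUp, bpt1) (tr v) := by
  have h := monodromy_beta m (-1/2) 2 (notMem_T3 (by norm_num) (by norm_num) (by norm_num))
    (notMem_T3 (by norm_num) (by norm_num) (by norm_num)) v
  have a1 : hfun m (-1/2) = g3 m := by
    rw [hfun, if_neg (by norm_num), if_pos (by norm_num)]
  have a2 : hfun m 2 = g3 m * g2 m * g1 m := by
    rw [hfun, if_neg (by norm_num), if_neg (by norm_num), if_neg (by norm_num)]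
  have a3 : (g3 m * g2 m * g1 m)⁻¹ * g3 m = tr := by
    rw [mul_inv_rev, mul_inv_rev, g1_inv, g2_inv, g3_inv, tr, mul_assoc, mul_assoc, g3_sq, mul_one]
  rw [a1, a2, a3] at h
  exact h

lemma monodromy_alpha' (m : ℕ) (v : Fib m) :
    (cov m).monodromy (Path.Homotopic.Quotient.mk alpha')
      ((stdGlue m).pt (true, true) (ptUp, bpt1) v) =
      (stdGlue m).pt (true, true) (ptUp, bpt1) (sh v) := by
  have h := monodromy_beta m (-2) (1/2) (notMem_T3 (by norm_num) (by norm_num) (by norm_num))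
    (notMem_T3 (by norm_num) (by norm_num) (by norm_num)) v
  have a1 : hfun m (-2) = 1 := by
    rw [hfun, if_pos (by norm_num)]
  have a2 : hfun m (1/2) = g3 m * g2 m := by
    rw [hfun, if_neg (by norm_num), if_neg (by norm_num), if_pos (by norm_num)]
  have a3 : (g3 m * g2 m)⁻¹ * 1 = sh := by
    rw [mul_inv_rev, g2_inv, g3_inv, sh, mul_one]
  rw [a1, a2, a3] at h
  exact h

lemma cutPlane_pathConnected {T : Set ℝ} (hT : T.Finite) : PathConnectedSpace (CutPlane T) := by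
  have h1 : IsPathConnected {z : ℂ | z.im ≠ 0 ∨ z.re ∉ T} := by
    have h2 : {z : ℂ | z.im ≠ 0 ∨ z.re ∉ T} = ((fun r : ℝ => (r : ℂ)) '' T)ᶜ := by
      ext z
      simp only [Set.mem_setOf_eq, Set.mem_compl_iff, Set.mem_image, not_exists, not_and]
      constructor
      · rintro (h | h) r hr rfl
        · simp at h
        · exact h (by simpa using hr)
      · intro h
        by_contra hc
        push Not at hc
        exact h z.re hc.2 (Complex.ext (by simp) (by simp [hc.1]))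
    rw [h2]
    apply Set.Countable.isPathConnected_compl_of_one_lt_rank
    · rw [Complex.rank_real_complex]
      norm_num
    · exact (hT.image _).countable
  exact isPathConnected_iff_pathConnectedSpace.1 h1

instance : PathConnectedSpace (CutPlane T3) := cutPlane_pathConnected finite_T3
instance : PathConnectedSpace (CutPlane T1) := cutPlane_pathConnected finite_T1

instance : PathConnectedSpace Base := inferInstance

end

end Pool.Agent.Lib.MP_1da757_ag
end

section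

/-!
# The complement of the five lines
-/

open MvPolynomial Topology unitInterval
open scoped LinearAlgebra.Projectivization

namespace Pool.Agent.Lib.MP_1da757_ag

noncomputable section

/-- the quotient map -/
def mkq (v : {v : Fin 3 → ℂ // v ≠ 0}) : ℙ ℂ (Fin 3 → ℂ) := Projectivization.mk ℂ v.1 v.2

lemma continuous_mkq : Continuous mkq := continuous_coinduced_rng

lemma isOpenQuotientMap_mkq : IsOpenQuotientMap mkq := by
  refine ⟨fun q => ⟨⟨q.rep, q.rep_nonzero⟩, q.mk_rep⟩, continuous_mkq, ?_⟩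
  intro U hU
  change IsOpen (mkq ⁻¹' (mkq '' U))
  have key : mkq ⁻¹' (mkq '' U) = ⋃ c : ℂˣ, (fun v : {v : Fin 3 → ℂ // v ≠ 0} =>
      (⟨(c : ℂ) • v.1, smul_ne_zero c.ne_zero v.2⟩ : {v : Fin 3 → ℂ // v ≠ 0})) ⁻¹' U := by
    ext v
    simp only [Set.mem_preimage, Set.mem_image, Set.mem_iUnion]
    constructor
    · rintro ⟨w, hw, hwv⟩
      obtain ⟨c, hc⟩ := (Projectivization.mk_eq_mk_iff ℂ _ _ w.2 v.2).1 hwv
      refine ⟨c, ?_⟩
      have : (⟨(c : ℂ) • v.1, smul_ne_zero c.ne_zero v.2⟩ : {v : Fin 3 → ℂ // v ≠ 0}) = w :=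
        Subtype.ext hc
      rwa [this]
    · rintro ⟨c, hc⟩
      refine ⟨_, hc, ?_⟩
      exact (Projectivization.mk_eq_mk_iff ℂ _ _ _ v.2).2 ⟨c, rfl⟩
  rw [key]
  refine isOpen_iUnion fun c => hU.preimage ?_
  apply Continuous.subtype_mk
  fun_prop

/-- the product of the equations does not vanish -/
lemma eval_lines_smul (c : ℂ) (v : Fin 3 → ℂ) (i : Fin 5) :
    eval (c • v) (lines i) = c * eval v (lines i) := by
  fin_cases i <;> simp [lines] <;> ring

lemma rep_iff (v : Fin 3 → ℂ) (hv : v ≠ 0) (i : Fin 5) :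
    eval (Projectivization.mk ℂ v hv).rep (lines i) ≠ 0 ↔ eval v (lines i) ≠ 0 := by
  obtain ⟨a, ha⟩ := Projectivization.exists_smul_eq_mk_rep ℂ v hv
  have : (a : ℂ) • v = (Projectivization.mk ℂ v hv).rep := ha
  rw [← this, eval_lines_smul]
  simp [a.ne_zero]

/-- the first coordinate is admissible -/
lemma adm1 {v : Fin 3 → ℂ} (h : ∀ i : Fin 5, eval v (lines i) ≠ 0) :
    (v 1 / v 0).im ≠ 0 ∨ (v 1 / v 0).re ∉ T3 := by
  have h0 : v 0 ≠ 0 := by simpa [lines] using h 0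
  have h1 : v 1 ≠ 0 := by simpa [lines] using h 1
  have h2 : v 1 - v 0 ≠ 0 := by simpa [lines] using h 2
  have h3 : v 1 + v 0 ≠ 0 := by simpa [lines] using h 3
  apply ne_T3
  · intro e
    rw [div_eq_iff h0] at e
    apply h3
    rw [e]
    ring
  · exact div_ne_zero h1 h0
  · intro e
    rw [div_eq_iff h0] at e
    apply h2
    rw [e]
    ring

/-- the second coordinate is admissible -/
lemma adm2 {v : Fin 3 → ℂ} (h : ∀ i : Fin 5, eval v (lines i) ≠ 0) :
    (v 0 / v 2).im ≠ 0 ∨ (v 0 / v 2).re ∉ T1 := by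
  have h0 : v 0 ≠ 0 := by simpa [lines] using h 0
  have h4 : v 2 ≠ 0 := by simpa [lines] using h 4
  exact ne_T1 (div_ne_zero h0 h4)

variable {m : ℕ} (hm : 2 ≤ m)

include hm in
lemma isotropy_ne_one (i : Fin 5) : isotropy ((pair m).b i) ≠ 1 := by
  have h : isotropy ((pair m).b i) = ord m i := isotropy_coef (by omega) i
  rw [h]
  exact ord_ne_one hm i

include hm in
lemma compl_rep (q : (pair m).Compl) (i : Fin 5) : eval q.1.rep (lines i) ≠ 0 :=
  q.2 i (isotropy_ne_one hm i)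

include hm in
lemma compl_eval (q : (pair m).Compl) (v : Fin 3 → ℂ) (hv : v ≠ 0)
    (h : q.1 = Projectivization.mk ℂ v hv) (i : Fin 5) : eval v (lines i) ≠ 0 := by
  rw [← rep_iff v hv, ← h]
  exact compl_rep hm q i

/-- a point of the complement -/
def cpt (v : Fin 3 → ℂ) (hv : v ≠ 0) (h : ∀ i : Fin 5, eval v (lines i) ≠ 0) : (pair m).Compl :=
  ⟨Projectivization.mk ℂ v hv, fun i _ => (rep_iff v hv i).2 (h i)⟩

/-- the map to the base of the covering -/
def toB (q : (pair m).Compl) : Base :=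
  bpt (q.1.rep 1 / q.1.rep 0) (q.1.rep 0 / q.1.rep 2) (adm1 (compl_rep hm q))
    (adm2 (compl_rep hm q))

lemma toB_eq (q : (pair m).Compl) (v : Fin 3 → ℂ) (hv : v ≠ 0)
    (h : q.1 = Projectivization.mk ℂ v hv) :
    toB hm q = bpt (v 1 / v 0) (v 0 / v 2) (adm1 (compl_eval hm q v hv h))
      (adm2 (compl_eval hm q v hv h)) := by
  obtain ⟨a, ha⟩ := Projectivization.exists_smul_eq_mk_rep ℂ v hv
  have ha' : (a : ℂ) • v = q.1.rep := by rw [h]; exact ha
  have e : ∀ j, q.1.rep j = a * v j := fun j => by rw [← ha']; rfl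
  apply Prod.ext
  · apply Subtype.ext
    change q.1.rep 1 / q.1.rep 0 = v 1 / v 0
    rw [e, e, mul_div_mul_left _ _ a.ne_zero]
  · apply Subtype.ext
    change q.1.rep 0 / q.1.rep 2 = v 0 / v 2
    rw [e, e, mul_div_mul_left _ _ a.ne_zero]

lemma continuous_toB : Continuous (toB hm) := by
  let S : Set (ℙ ℂ (Fin 3 → ℂ)) :=
    {q | ∀ i, isotropy ((pair m).b i) ≠ 1 → eval q.rep ((pair m).F i) ≠ 0}
  have hq : IsOpenQuotientMap (S.restrictPreimage mkq) := isOpenQuotientMap_mkq.restrictPreimage S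
  have hc := hq.continuous_comp_iff (g := toB hm)
  have hv : ∀ x : mkq ⁻¹' S, ∀ i : Fin 5, eval x.1.1 (lines i) ≠ 0 := by
    intro x
    exact compl_eval hm (S.restrictPreimage mkq x) x.1.1 x.1.2 rfl
  have e : toB hm ∘ S.restrictPreimage mkq = fun x : mkq ⁻¹' S =>
      bpt (x.1.1 1 / x.1.1 0) (x.1.1 0 / x.1.1 2) (adm1 (hv x)) (adm2 (hv x)) := by
    funext x
    exact toB_eq hm _ x.1.1 x.1.2 rfl
  have hcoord : ∀ j, Continuous fun x : mkq ⁻¹' S => x.1.1 j := fun j =>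
    (continuous_apply j).comp (continuous_subtype_val.comp continuous_subtype_val)
  have h3 : Continuous fun x : mkq ⁻¹' S =>
      bpt (x.1.1 1 / x.1.1 0) (x.1.1 0 / x.1.1 2) (adm1 (hv x)) (adm2 (hv x)) := by
    refine Continuous.prodMk (Continuous.subtype_mk ?_ _) (Continuous.subtype_mk ?_ _)
    · refine (hcoord 1).div (hcoord 0) fun x => ?_
      simpa [lines] using hv x 0
    · refine (hcoord 0).div (hcoord 2) fun x => ?_
      simpa [lines] using hv x 4
  exact hc.1 ((congrArg Continuous e).mpr h3)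

lemma base_ne1 (b : Base) : b.1.1 ≠ 0 ∧ b.1.1 ≠ 1 ∧ b.1.1 ≠ -1 := by
  have h := b.1.2
  refine ⟨?_, ?_, ?_⟩ <;>
  · intro e
    rw [e] at h
    simp [T3] at h

lemma base_ne2 (b : Base) : b.2.1 ≠ 0 := by
  have h := b.2.2
  intro e
  rw [e] at h
  simp [T1] at h

/-- homogeneous coordinates of the point with given affine coordinates -/
def vec (b : Base) : Fin 3 → ℂ := ![b.2.1, b.2.1 * b.1.1, 1]

lemma vec_ne_zero (b : Base) : vec b ≠ 0 := by
  intro h
  have := congrFun h 2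
  simp [vec] at this

lemma vec_eval (b : Base) (i : Fin 5) : eval (vec b) (lines i) ≠ 0 := by
  obtain ⟨h1, h2, h3⟩ := base_ne1 b
  have h4 := base_ne2 b
  fin_cases i
  · simpa [vec, lines] using h4
  · simpa [vec, lines] using ⟨h4, h1⟩
  · have : b.2.1 * b.1.1 - b.2.1 ≠ 0 := by
      have e : b.2.1 * b.1.1 - b.2.1 = b.2.1 * (b.1.1 - 1) := by ring
      rw [e]
      exact mul_ne_zero h4 (sub_ne_zero.2 h2)
    simpa [vec, lines] using this
  · have : b.2.1 * b.1.1 + b.2.1 ≠ 0 := by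
      have e : b.2.1 * b.1.1 + b.2.1 = b.2.1 * (b.1.1 - (-1)) := by ring
      rw [e]
      exact mul_ne_zero h4 (sub_ne_zero.2 h3)
    simpa [vec, lines] using this
  · simp [vec, lines]

/-- the inverse map -/
def ofB (b : Base) : (pair m).Compl := cpt (vec b) (vec_ne_zero b) (vec_eval b)

lemma continuous_ofB : Continuous (ofB (m := m)) := by
  refine Continuous.subtype_mk (f := fun b => mkq ⟨vec b, vec_ne_zero b⟩) ?_ _
  apply continuous_mkq.comp
  apply Continuous.subtype_mk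
  apply continuous_pi
  intro j
  have h1 : Continuous fun b : Base => b.1.1 := continuous_subtype_val.comp continuous_fst
  have h2 : Continuous fun b : Base => b.2.1 := continuous_subtype_val.comp continuous_snd
  fin_cases j
  · exact h2
  · exact h2.mul h1
  · exact continuous_const

lemma toB_ofB (b : Base) : toB hm (ofB b) = b := by
  rw [toB_eq hm (ofB b) (vec b) (vec_ne_zero b) rfl]
  have h4 := base_ne2 b
  apply Prod.ext
  · apply Subtype.ext
    change vec b 1 / vec b 0 = b.1.1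
    simp [vec, h4]
  · apply Subtype.ext
    change vec b 0 / vec b 2 = b.2.1
    simp [vec]

lemma ofB_toB (q : (pair m).Compl) : ofB (toB hm q) = q := by
  apply Subtype.ext
  change Projectivization.mk ℂ (vec (toB hm q)) _ = q.1
  rw [← q.1.mk_rep, Projectivization.mk_eq_mk_iff']
  have h := compl_rep hm q
  have h0 : q.1.rep 0 ≠ 0 := by simpa [lines] using h 0
  have h2 : q.1.rep 2 ≠ 0 := by simpa [lines] using h 4
  refine ⟨(q.1.rep 2)⁻¹, ?_⟩
  funext j
  fin_cases j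
  · change (q.1.rep 2)⁻¹ * q.1.rep 0 = q.1.rep 0 / q.1.rep 2
    field_simp
  · change (q.1.rep 2)⁻¹ * q.1.rep 1 = q.1.rep 0 / q.1.rep 2 * (q.1.rep 1 / q.1.rep 0)
    field_simp
  · change (q.1.rep 2)⁻¹ * q.1.rep 2 = 1
    field_simp

/-- the map to the base as a bundled map -/
def toBC : C((pair m).Compl, Base) := ⟨toB hm, continuous_toB hm⟩

/-- the inverse map as a bundled map -/
def ofBC : C(Base, (pair m).Compl) := ⟨ofB, continuous_ofB⟩

end

end Pool.Agent.Lib.MP_1da757_ag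
end

section

/-!
# Meridians act with the right order
-/

open MvPolynomial Topology unitInterval
open scoped LinearAlgebra.Projectivization

namespace Pool.Agent.Lib.MP_1da757_ag

noncomputable section

lemma order_of_monOrd {m n : ℕ} {y : Base} (γ : Path y y) (φ : C(Circle, Base))
    (h : ∀ θ : I, γ θ = φ (circLoop θ)) (hφ : MonOrd (cov m) n φ) (e : (stdGlue m).proj ⁻¹' {y}) :
    ((cov m).monodromy (Path.Homotopic.Quotient.mk γ))^[n] e = e := by
  have hy : y = φ 1 := by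
    rw [← γ.source, h, circLoop.source]
  subst hy
  have hγ : γ = loopOf φ := by
    apply Path.ext
    funext θ
    exact h θ
  rw [hγ]
  exact hφ e

variable {m : ℕ} (hm : 2 ≤ m)

include hm in
lemma monOrd_meridian (i : Fin 5) (q w : Fin 3 → ℂ)
    (hq0 : eval q (lines i) = 0)
    (hd : deriv (fun s : ℂ => eval (q + s • w) (lines i)) 0 ≠ 0)
    (hs : ∀ s : ℂ, ‖s‖ ≤ 1 → ∀ j : Fin 5, (j = i ∧ s = 0) ∨ eval (q + s • w) (lines j) ≠ 0) :
    ∃ φ : C(Circle, Base), MonOrd (cov m) (ord m i) φ ∧ ∀ s : Circle,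
      (φ s).1.1 = (q + (s : ℂ) • w) 1 / (q + (s : ℂ) • w) 0 ∧
      (φ s).2.1 = (q + (s : ℂ) • w) 0 / (q + (s : ℂ) • w) 2 := by
  have hcirc : ∀ s : Circle, ‖(s : ℂ)‖ ≤ 1 := fun s => by rw [Circle.norm_coe]
  have hcirc0 : ∀ s : Circle, (s : ℂ) ≠ 0 := fun s => Circle.coe_ne_zero s
  have hall : ∀ s : ℂ, ‖s‖ ≤ 1 → s ≠ 0 → ∀ j : Fin 5, eval (q + s • w) (lines j) ≠ 0 := by
    intro s h1 h2 j
    rcases hs s h1 j with h | h
    · exact absurd h.2 h2
    · exact h
  have hoth : ∀ s : ℂ, ‖s‖ ≤ 1 → ∀ j : Fin 5, j ≠ i → eval (q + s • w) (lines j) ≠ 0 := by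
    intro s h1 j h2
    rcases hs s h1 j with h | h
    · exact absurd h.1 h2
    · exact h
  have ex : ∀ s : ℂ, eval (q + s • w) (lines 0) = q 0 + s * w 0 := fun s => by simp [lines]
  have ey : ∀ s : ℂ, eval (q + s • w) (lines 1) = q 1 + s * w 1 := fun s => by simp [lines]
  have ez : ∀ s : ℂ, eval (q + s • w) (lines 4) = q 2 + s * w 2 := fun s => by simp [lines]
  have a1 : ∀ s : ℂ, ‖s‖ ≤ 1 → s ≠ 0 → ((q 1 + s * w 1) / (q 0 + s * w 0)).im ≠ 0 ∨
      ((q 1 + s * w 1) / (q 0 + s * w 0)).re ∉ T3 := fun s h1 h2 => adm1 (hall s h1 h2)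
  have a2 : ∀ s : ℂ, ‖s‖ ≤ 1 → s ≠ 0 → ((q 0 + s * w 0) / (q 2 + s * w 2)).im ≠ 0 ∨
      ((q 0 + s * w 0) / (q 2 + s * w 2)).re ∉ T1 := fun s h1 h2 => adm2 (hall s h1 h2)
  have b1 : ∀ s : Circle, ((q 1 + s * w 1) / (q 0 + s * w 0)).im ≠ 0 ∨
      ((q 1 + s * w 1) / (q 0 + s * w 0)).re ∉ T3 := fun s => a1 s (hcirc s) (hcirc0 s)
  have b2 : ∀ s : Circle, ((q 0 + s * w 0) / (q 2 + s * w 2)).im ≠ 0 ∨
      ((q 0 + s * w 0) / (q 2 + s * w 2)).re ∉ T1 := fun s => a2 s (hcirc s) (hcirc0 s)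
  have c1 : Continuous fun s : Circle => (q 1 + s * w 1) / (q 0 + s * w 0) := by
    refine Continuous.div (by fun_prop) (by fun_prop) fun s => ?_
    rw [← ex]
    exact hall s (hcirc s) (hcirc0 s) 0
  have c2 : Continuous fun s : Circle => (q 0 + s * w 0) / (q 2 + s * w 2) := by
    refine Continuous.div (by fun_prop) (by fun_prop) fun s => ?_
    rw [← ez]
    exact hall s (hcirc s) (hcirc0 s) 4
  refine ⟨mkMap (fun s : Circle => (q 1 + s * w 1) / (q 0 + s * w 0))
    (fun s => (q 0 + s * w 0) / (q 2 + s * w 2)) c1 c2 b1 b2, ?_, fun s => ⟨rfl, rfl⟩⟩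
  have hsmall : ∀ t : ℝ, t ∈ T3 → i ≠ 0 → i ≠ 4 → q 1 = t * q 0 → MonOrd (cov m) 2
      (mkMap (fun s : Circle => (q 1 + s * w 1) / (q 0 + s * w 0))
        (fun s => (q 0 + s * w 0) / (q 2 + s * w 2)) c1 c2 b1 b2) := by
    intro t ht hi0 hi4 h0
    apply monOrd_disc_small m t ht
    · intro s h1
      rw [← ex]
      exact hoth s h1 0 hi0.symm
    · intro s h1
      rw [← ez]
      exact hoth s h1 4 hi4.symm
    · exact a1
    · exact h0
  fin_cases i
  · -- the line `x = 0`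
    have hx0 : q 0 = 0 := by simpa [lines] using hq0
    have hx1 : w 0 ≠ 0 := by
      intro h
      apply hd
      have : (fun s : ℂ => eval (q + s • w) (lines 0)) = fun _ => 0 := by
        funext s
        rw [ex, hx0, h]
        ring
      change deriv (fun s : ℂ => eval (q + s • w) (lines 0)) 0 = 0
      rw [this, deriv_const]
    have hy0 : q 1 ≠ 0 := by
      have := hoth 0 (by simp) 1 (by decide)
      rw [ey] at this
      simpa using this
    have e1 : (fun s : Circle => (q 1 + s * w 1) / (q 0 + s * w 0)) =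
        fun s : Circle => (q 1 + s * w 1) / (s * w 0) := by
      funext s
      rw [hx0, zero_add]
    have e2 : (fun s : Circle => (q 0 + s * w 0) / (q 2 + s * w 2)) =
        fun s : Circle => (s * w 0) / (q 2 + s * w 2) := by
      funext s
      rw [hx0, zero_add]
    have key := monOrd_disc_big m (w 0) (q 1) (w 1) (q 2) (w 2) hx1 hy0
      (fun s h1 => by
        rw [← ez]
        exact hoth s h1 4 (by decide))
      (fun s h1 h2 => by
        have := a1 s h1 h2
        rw [hx0, zero_add] at this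
        exact this)
      (by rw [← e1]; exact c1) (by rw [← e2]; exact c2)
      (fun s => by
        have := b1 s
        rw [hx0, zero_add] at this
        exact this)
      (fun s => by
        have := b2 s
        rw [hx0, zero_add] at this
        exact this)
    simp only [hx0, zero_add]
    exact key
  · refine hsmall 0 (by simp [T3]) (by decide) (by decide) ?_
    have : q 1 = 0 := by simpa [lines] using hq0
    rw [this]
    simp
  · refine hsmall 1 (by simp [T3]) (by decide) (by decide) ?_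
    have : q 1 - q 0 = 0 := by simpa [lines] using hq0
    push_cast
    linear_combination this
  · refine hsmall (-1) (by simp [T3]) (by decide) (by decide) ?_
    have : q 1 + q 0 = 0 := by simpa [lines] using hq0
    push_cast
    linear_combination this
  · -- the line `z = 0`
    have hz0 : q 2 = 0 := by simpa [lines] using hq0
    have hz1 : w 2 ≠ 0 := by
      intro h
      apply hd
      have : (fun s : ℂ => eval (q + s • w) (lines 4)) = fun _ => 0 := by
        funext s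
        rw [ez, hz0, h]
        ring
      change deriv (fun s : ℂ => eval (q + s • w) (lines 4)) 0 = 0
      rw [this, deriv_const]
    have e2 : (fun s : Circle => (q 0 + s * w 0) / (q 2 + s * w 2)) =
        fun s : Circle => (q 0 + s * w 0) / (s * w 2) := by
      funext s
      rw [hz0, zero_add]
    have key := monOrd_disc_inf m (q 0) (w 0) (q 1) (w 1) (w 2) hz1
      (fun s h1 => by
        rw [← ex]
        exact hoth s h1 0 (by decide))
      (fun s h1 => ?_) c1 (by rw [← e2]; exact c2) b1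
      (fun s => by
        have := b2 s
        rw [hz0, zero_add] at this
        exact this)
    · simp only [hz0, zero_add]
      exact key
    · by_cases h2 : s = 0
      · subst h2
        have h0 := hoth 0 (by simp) 0 (by decide)
        have h1' := hoth 0 (by simp) 1 (by decide)
        have h2' := hoth 0 (by simp) 2 (by decide)
        have h3' := hoth 0 (by simp) 3 (by decide)
        have h0 : q 0 ≠ 0 := by simpa [lines] using h0
        have h1' : q 1 ≠ 0 := by simpa [lines] using h1'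
        have h2' : q 1 - q 0 ≠ 0 := by simpa [lines] using h2'
        have h3' : q 1 + q 0 ≠ 0 := by simpa [lines] using h3'
        rw [zero_mul, zero_mul, add_zero, add_zero]
        apply ne_T3
        · intro e
          rw [div_eq_iff h0] at e
          apply h3'
          rw [e]
          ring
        · exact div_ne_zero h1' h0
        · intro e
          rw [div_eq_iff h0] at e
          apply h2'
          rw [e]
          ring
      · exact a1 s h1 h2

end

end Pool.Agent.Lib.MP_1da757_ag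
end
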